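import Pool.Agent.H64.LocalPlanar

/-!
# Balls in locally planar topological graphs
-/

set_option autoImplicit false

namespace Pool.Agent.H64.LocalPlanar

open Pool.Agent.Helper234_Grid Finset

variable {V : Type}

/-- edges at a small distance do not cross -/
theorem near {D : TopologicalGraph V} {k : ℕ} (hD : LocallyPlanar D k) (L : ℕ) :
    ∀ {x y z w : V}, D.graph.Adj x y → D.graph.Adj z w → ∀ p : D.graph.Walk x z,
      p.length = L → L + 2 ≤ k → ¬ D.Cross s(x, y) s(z, w) := by
  induction L using Nat.strong_induction_on with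
  | _ L ih =>
    intro x y z w hxy hzw p hp hL hX
    classical
    let q := p.bypass
    have hq : q.IsPath := p.bypass_isPath
    have hql : q.length ≤ L := hp ▸ p.length_bypass_le_length
    -- `y` is not on `q`
    have hy : y ∉ q.support := by
      intro hy
      have h1 := congrArg SimpleGraph.Walk.length (q.take_spec hy)
      rw [SimpleGraph.Walk.length_append] at h1
      have h2 : 0 < (q.takeUntil y hy).length := by
        rw [Nat.pos_iff_ne_zero]
        intro h0
        exact hxy.ne (SimpleGraph.Walk.eq_of_length_eq_zero h0)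
      refine ih (q.dropUntil y hy).length (by omega) hxy.symm hzw _ rfl (by omega) ?_
      rwa [Sym2.eq_swap]
    have hw : w ∉ q.support := by
      intro hw
      have h1 := congrArg SimpleGraph.Walk.length (q.take_spec hw)
      rw [SimpleGraph.Walk.length_append] at h1
      have h2 : 0 < (q.dropUntil w hw).length := by
        rw [Nat.pos_iff_ne_zero]
        intro h0
        exact hzw.ne (SimpleGraph.Walk.eq_of_length_eq_zero h0).symm
      refine ih (q.takeUntil w hw).length (by omega) hxy hzw.symm _ rfl (by omega) ?_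
      rwa [Sym2.eq_swap (a := w)]
    have hyw : y ≠ w := by
      rintro rfl
      rcases Nat.eq_zero_or_pos L with h0 | h0
      · subst h0
        have h1 : x = z := SimpleGraph.Walk.eq_of_length_eq_zero hp
        subst h1
        exact hX.1 rfl
      · refine ih 0 h0 hxy.symm hzw.symm (.nil : D.graph.Walk y y) rfl (by omega) ?_
        rw [Sym2.eq_swap, Sym2.eq_swap (a := y) (b := z)]
        exact hX
    refine hD y w (.cons hxy.symm (q.concat hzw)) ?_ ?_ _ ?_ _ ?_ hX
    · rw [SimpleGraph.Walk.cons_isPath_iff]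
      refine ⟨hq.concat hw hzw, ?_⟩
      rw [SimpleGraph.Walk.support_concat]
      simp only [List.mem_append, List.mem_singleton, not_or]
      exact ⟨hy, hyw⟩
    · rw [SimpleGraph.Walk.length_cons, SimpleGraph.Walk.length_concat]
      omega
    · rw [SimpleGraph.Walk.edges_cons]
      rw [Sym2.eq_swap]
      exact List.mem_cons_self
    · rw [SimpleGraph.Walk.edges_cons, SimpleGraph.Walk.edges_concat]
      refine List.mem_cons_of_mem _ ?_
      simp

/-- the part of a topological graph with the vertex set `B'` and the edges of `H` with an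
endpoint in `B` -/
def sub (D : TopologicalGraph V) (H : SimpleGraph V) (hH : H ≤ D.graph) (B B' : Finset V) :
    TopologicalGraph B' where
  graph :=
    { Adj := fun x y => H.Adj x y ∧ ((x : V) ∈ B ∨ (y : V) ∈ B)
      symm := ⟨fun x y h => ⟨h.1.symm, h.2.symm⟩⟩
      loopless := ⟨fun x h => h.1.ne rfl⟩ }
  pos := fun x => D.pos x
  arc := fun e => D.arc (Sym2.map (fun x : B' => (x : V)) e)
  pos_injective := fun x y h => Subtype.ext (D.pos_injective h)
  isArc := fun u v h => D.isArc u v (hH h.1)
  avoid := by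
    intro e he w hw
    induction e with
    | _ x y =>
      have h1 : s((x : V), (y : V)) ∈ D.graph.edgeSet := hH he.1
      have h2 := D.avoid _ h1 w hw
      rw [Sym2.mem_iff] at h2 ⊢
      rcases h2 with h2 | h2
      · exact Or.inl (Subtype.ext h2)
      · exact Or.inr (Subtype.ext h2)

/-- crossing edges of the part cross -/
theorem cross_of_sub {D : TopologicalGraph V} {H : SimpleGraph V} {hH : H ≤ D.graph}
    {B B' : Finset V} {x y z w : B'} (h : (sub D H hH B B').Cross s(x, y) s(z, w)) :
    D.Cross s((x : V), (y : V)) s((z : V), (w : V)) := by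
  obtain ⟨hne, t, h1, h2, h3, h4⟩ := h
  refine ⟨?_, t, h1, h2, ?_, ?_⟩
  · intro he
    apply hne
    have hi : Function.Injective (fun x : B' => (x : V)) := Subtype.val_injective
    exact Sym2.map.injective hi he
  · intro v hv
    rw [Sym2.mem_iff] at hv
    rcases hv with rfl | rfl
    · exact h3 x (Sym2.mem_mk_left _ _)
    · exact h3 y (Sym2.mem_mk_right _ _)
  · intro v hv
    rw [Sym2.mem_iff] at hv
    rcases hv with rfl | rfl
    · exact h4 z (Sym2.mem_mk_left _ _)
    · exact h4 w (Sym2.mem_mk_right _ _)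

/-- one step of the growth of balls -/
theorem grow (c : ℕ) (hc : ∀ (W : Type) [Fintype W] (D : TopologicalGraph W),
      ¬ D.HasNaturalGrid 1 1 → D.graph.edgeSet.ncard ≤ c * Fintype.card W)
    {D : TopologicalGraph V} {H : SimpleGraph V} (hH : H ≤ D.graph)
    (B B' : Finset V) (hBB' : B ⊆ B') (hN : ∀ x ∈ B, ∀ y, H.Adj x y → y ∈ B')
    (hX : ∀ x ∈ B, ∀ z ∈ B, ∀ y w, H.Adj x y → H.Adj z w → ¬ D.Cross s(x, y) s(z, w))
    (P : Finset (V × V)) (hP : ∀ p ∈ P, p.1 ∈ B ∧ H.Adj p.1 p.2) :
    P.card ≤ 2 * (c * B'.card) := by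
  classical
  have h1 : ¬ (sub D H hH B B').HasNaturalGrid 1 1 := by
    rintro ⟨E₁, E₂, hE1, hE2, -, hc1, hc2, hX', -⟩
    obtain ⟨e, he⟩ := card_eq_one.1 hc1
    obtain ⟨f, hf⟩ := card_eq_one.1 hc2
    have he' : e ∈ E₁ := by rw [he]; exact mem_singleton_self _
    have hf' : f ∈ E₂ := by rw [hf]; exact mem_singleton_self _
    have h2 := hX' e he' f hf'
    have h3 := hE1 he'
    have h4 := hE2 hf'
    clear he hf he' hf'
    induction e with
    | _ x y =>
      induction f with
      | _ z w =>
        have h5 := cross_of_sub h2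
        obtain ⟨h6, h7⟩ := h3
        obtain ⟨h8, h9⟩ := h4
        rcases h7 with h7 | h7 <;> rcases h9 with h9 | h9
        · exact hX _ h7 _ h9 _ _ h6 h8 h5
        · rw [Sym2.eq_swap (a := (z : V))] at h5
          exact hX _ h7 _ h9 _ _ h6 h8.symm h5
        · rw [Sym2.eq_swap (a := (x : V))] at h5
          exact hX _ h7 _ h9 _ _ h6.symm h8 h5
        · rw [Sym2.eq_swap (a := (x : V)), Sym2.eq_swap (a := (z : V))] at h5
          exact hX _ h7 _ h9 _ _ h6.symm h8.symm h5
  have h2 := hc B' (sub D H hH B B') h1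
  rw [Fintype.card_coe] at h2
  have h3 : P.card ≤ 2 * (P.image fun p => s(p.1, p.2)).card := by
    refine card_le_mul_card_image _ _ fun e _ => ?_
    induction e with
    | _ x y =>
      calc _ ≤ ({(x, y), (y, x)} : Finset (V × V)).card := by
            refine card_le_card fun p hp => ?_
            rw [mem_filter] at hp
            obtain ⟨-, hp⟩ := hp
            rw [Sym2.eq_iff] at hp
            rw [mem_insert, mem_singleton]
            rcases hp with ⟨h, h'⟩ | ⟨h, h'⟩
            · exact Or.inl (Prod.ext h h')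
            · exact Or.inr (Prod.ext h h')
        _ ≤ 2 := card_le_two
  have h4 : (P.image fun p => s(p.1, p.2)).card ≤ (sub D H hH B B').graph.edgeSet.ncard := by
    rw [← Set.ncard_coe_finset, ← Set.ncard_image_of_injective (sub D H hH B B').graph.edgeSet
      (Sym2.map.injective (Subtype.val_injective : Function.Injective (fun x : B' => (x : V))))]
    refine Set.ncard_le_ncard ?_ (Set.toFinite _)
    intro e he
    simp only [coe_image, Set.mem_image, mem_coe] at he
    obtain ⟨p, hp, rfl⟩ := he
    obtain ⟨hp1, hp2⟩ := hP p hp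
    exact ⟨s(⟨p.1, hBB' hp1⟩, ⟨p.2, hN _ hp1 _ hp2⟩), ⟨hp2, Or.inl hp1⟩, rfl⟩
  calc P.card ≤ 2 * (P.image fun p => s(p.1, p.2)).card := h3
    _ ≤ 2 * (c * B'.card) := Nat.mul_le_mul_left _ (h4.trans h2)

/-- in every set of vertices some vertex has small degree -/
theorem exists_small_degree [Fintype V] (c : ℕ) (hc0 : 1 ≤ c)
    (hc : ∀ (W : Type) [Fintype W] (D : TopologicalGraph W),
      ¬ D.HasNaturalGrid 1 1 → D.graph.edgeSet.ncard ≤ c * Fintype.card W)
    (D : TopologicalGraph V) (k r : ℕ) (hr : 1 ≤ r) (hrk : 2 * r ≤ k) (hD : LocallyPlanar D k)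
    (S : Finset V) (hS : S.Nonempty) [DecidableRel D.graph.Adj] :
    ∃ v ∈ S, ((S.filter fun y => D.graph.Adj v y).card : ℝ) ≤
      2 * c * (Fintype.card V : ℝ) ^ ((1 : ℝ) / r) := by
  classical
  by_contra hcon
  push Not at hcon
  obtain ⟨v, hv⟩ := hS
  have hn0 : (0 : ℝ) < Fintype.card V := by
    exact_mod_cast Fintype.card_pos_iff.2 ⟨v⟩
  set t : ℝ := (Fintype.card V : ℝ) ^ ((1 : ℝ) / r) with ht
  have ht0 : 0 < t := Real.rpow_pos_of_pos hn0 _
  have htr : t ^ r = Fintype.card V := by
    rw [ht, ← Real.rpow_natCast, ← Real.rpow_mul hn0.le]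
    rw [one_div, inv_mul_cancel₀ (by exact_mod_cast (by omega : r ≠ 0)), Real.rpow_one]
  let H : SimpleGraph V :=
    { Adj := fun x y => D.graph.Adj x y ∧ x ∈ S ∧ y ∈ S
      symm := ⟨fun x y h => ⟨h.1.symm, h.2.2, h.2.1⟩⟩
      loopless := ⟨fun x h => h.1.ne rfl⟩ }
  have hH : H ≤ D.graph := fun x y h => h.1
  -- balls
  let B : ℕ → Finset V := fun j => Nat.rec {v} (fun _ T => T ∪ S.filter fun y => ∃ x ∈ T, H.Adj x y) j
  have hB0 : B 0 = {v} := rfl
  have hBs : ∀ j, B (j + 1) = B j ∪ S.filter fun y => ∃ x ∈ B j, H.Adj x y := fun j => rfl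
  have hBS : ∀ j, B j ⊆ S := by
    intro j
    induction j with
    | zero => rw [hB0]; exact singleton_subset_iff.2 hv
    | succ j ih => rw [hBs]; exact union_subset ih (filter_subset _ _)
  have hwalk : ∀ j, ∀ x ∈ B j, ∃ p : D.graph.Walk v x, p.length ≤ j := by
    intro j
    induction j with
    | zero =>
      intro x hx
      rw [hB0, mem_singleton] at hx
      subst hx
      exact ⟨.nil, le_rfl⟩
    | succ j ih =>
      intro x hx
      rw [hBs, mem_union, mem_filter] at hx
      rcases hx with hx | ⟨-, y, hy, hyx⟩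
      · obtain ⟨p, hp⟩ := ih x hx
        exact ⟨p, by omega⟩
      · obtain ⟨p, hp⟩ := ih y hy
        exact ⟨p.concat hyx.1, by rw [SimpleGraph.Walk.length_concat]; omega⟩
  have hgrow : ∀ j, j < r → 2 * c * t * (B j).card < 2 * (c * (B (j + 1)).card) := by
    intro j hj
    let P : Finset (V × V) := (B j ×ˢ S).filter fun p => D.graph.Adj p.1 p.2
    have h1 := grow c hc hH (B j) (B (j + 1)) (by rw [hBs]; exact subset_union_left)
      (by
        intro x hx y hxy
        rw [hBs, mem_union, mem_filter]
        exact Or.inr ⟨hxy.2.2, x, hx, hxy⟩)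
      (by
        intro x hx z hz y w hxy hzw
        obtain ⟨p, hp⟩ := hwalk j x hx
        obtain ⟨q, hq⟩ := hwalk j z hz
        refine near hD _ hxy.1 hzw.1 (p.reverse.append q) rfl ?_
        rw [SimpleGraph.Walk.length_append, SimpleGraph.Walk.length_reverse]
        omega)
      P (by
        intro p hp
        rw [mem_filter, mem_product] at hp
        exact ⟨hp.1.1, hp.2, hBS j hp.1.1, hp.1.2⟩)
    have h2 : P.card = ∑ x ∈ B j, (S.filter fun y => D.graph.Adj x y).card := by
      simp only [P, card_filter]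
      rw [sum_product]
    have h3 : 2 * c * t * (B j).card < (P.card : ℝ) := by
      rw [h2]
      push_cast
      calc 2 * c * t * (B j).card = ∑ x ∈ B j, 2 * c * t := by
            rw [sum_const, nsmul_eq_mul, mul_comm]
        _ < _ := sum_lt_sum_of_nonempty (by
            have : v ∈ B j := by
              clear hj h1 h2 P
              induction j with
              | zero => rw [hB0]; exact mem_singleton_self _
              | succ j ih => rw [hBs]; exact mem_union_left _ ih
            exact ⟨v, this⟩) fun x hx => hcon x (hBS j hx)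
    calc 2 * c * t * (B j).card < (P.card : ℝ) := h3
      _ ≤ 2 * (c * (B (j + 1)).card) := by exact_mod_cast h1
  have hpow : ∀ j, 1 ≤ j → j ≤ r → t ^ j < (B j).card := by
    intro j hj
    have hc' : (0 : ℝ) < c := by exact_mod_cast hc0
    induction j, hj using Nat.le_induction with
    | base =>
      intro h1
      have := hgrow 0 (by omega)
      rw [hB0, card_singleton] at this
      simp only [Nat.cast_one, mul_one, zero_add] at this
      have h3 : (2 * c) * t < (2 * c) * ((B 1).card : ℝ) := by linarith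
      rw [pow_one]
      exact lt_of_mul_lt_mul_left h3 (by positivity)
    | succ j hj ih =>
      intro h1
      have h2 := ih (by omega)
      have h3 := hgrow j (by omega)
      have h4 : (2 * c) * (t * (B j).card) < (2 * c) * ((B (j + 1)).card : ℝ) := by linarith
      have h5 := lt_of_mul_lt_mul_left h4 (by positivity)
      calc t ^ (j + 1) = t * t ^ j := by ring
        _ < t * (B j).card := by gcongr
        _ < _ := h5
  have h1 := hpow r hr le_rfl
  rw [htr] at h1
  have h2 : (B r).card ≤ Fintype.card V := card_le_univ _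
  exact absurd (by exact_mod_cast h2 : ((B r).card : ℝ) ≤ Fintype.card V) (not_le.2 h1)

/-- **Locally planar graphs are sparse.** -/
theorem general (k : ℕ) (hk : 2 ≤ k) : ∃ C : ℝ, ∀ (V : Type) [Fintype V]
    (D : TopologicalGraph V), LocallyPlanar D k →
      (D.graph.edgeSet.ncard : ℝ) ≤
        C * (Fintype.card V : ℝ) ^ (1 + (1 : ℝ) / ((k / 2 : ℕ) : ℝ)) := by
  classical
  obtain ⟨c₀, hc₀⟩ := main 1 1
  obtain ⟨c, hc0, hc⟩ : ∃ c : ℕ, 1 ≤ c ∧ ∀ (W : Type) [Fintype W] (D : TopologicalGraph W),
      ¬ D.HasNaturalGrid 1 1 → D.graph.edgeSet.ncard ≤ c * Fintype.card W :=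
    ⟨c₀ + 1, by omega, fun W _ D h => (hc₀ W D h).trans (Nat.mul_le_mul_right _ (by omega))⟩
  refine ⟨2 * c, fun V _ D hD => ?_⟩
  set r : ℕ := k / 2 with hr
  have hr1 : 1 ≤ r := by omega
  set M : ℝ := 2 * c * (Fintype.card V : ℝ) ^ ((1 : ℝ) / r) with hM
  -- edges inside a set
  have key : ∀ (m : ℕ) (S : Finset V), S.card = m →
      ((((S ×ˢ S).filter fun p => D.graph.Adj p.1 p.2).card : ℕ) : ℝ) ≤ 2 * M * S.card := by
    intro m
    induction m with
    | zero =>
      intro S hS
      rw [card_eq_zero] at hS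
      subst hS
      simp
    | succ m ih =>
      intro S hS
      obtain ⟨v, hvS, hv⟩ := exists_small_degree c hc0 hc D k r hr1 (by omega) hD S
        (card_pos.1 (by omega))
      have h1 := ih (S.erase v) (by rw [card_erase_of_mem hvS, hS]; rfl)
      have h2 : ((S ×ˢ S).filter fun p => D.graph.Adj p.1 p.2) ⊆
          (((S.erase v) ×ˢ (S.erase v)).filter fun p => D.graph.Adj p.1 p.2) ∪
          (((S.filter fun y => D.graph.Adj v y).image fun y => (v, y)) ∪
            ((S.filter fun y => D.graph.Adj v y).image fun y => (y, v))) := by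
        rintro ⟨x, y⟩ hp
        rw [mem_filter, mem_product] at hp
        obtain ⟨⟨hx, hy⟩, hxy⟩ := hp
        rw [mem_union, mem_union]
        by_cases hxv : x = v
        · subst hxv
          exact Or.inr (Or.inl (mem_image.2 ⟨y, mem_filter.2 ⟨hy, hxy⟩, rfl⟩))
        · by_cases hyv : y = v
          · subst hyv
            exact Or.inr (Or.inr (mem_image.2 ⟨x, mem_filter.2 ⟨hx, hxy.symm⟩, rfl⟩))
          · exact Or.inl (mem_filter.2 ⟨mem_product.2 ⟨mem_erase.2 ⟨hxv, hx⟩,
              mem_erase.2 ⟨hyv, hy⟩⟩, hxy⟩)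
      have h3 := (card_le_card h2).trans ((card_union_le _ _).trans
        (Nat.add_le_add_left ((card_union_le _ _).trans
          (Nat.add_le_add card_image_le card_image_le)) _))
      have h4 : ((((S ×ˢ S).filter fun p => D.graph.Adj p.1 p.2).card : ℕ) : ℝ) ≤
          ((((S.erase v) ×ˢ (S.erase v)).filter fun p => D.graph.Adj p.1 p.2).card : ℕ) +
          (((S.filter fun y => D.graph.Adj v y).card : ℕ) +
            ((S.filter fun y => D.graph.Adj v y).card : ℕ)) := by exact_mod_cast h3
      have h5 : (S.card : ℝ) = ((S.erase v).card : ℝ) + 1 := by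
        rw [card_erase_of_mem hvS, Nat.cast_sub (by omega)]; simp
      rw [h5]
      linarith
  have h1 := key _ univ rfl
  have h2 : 2 * D.graph.edgeSet.ncard =
      ((univ ×ˢ univ : Finset (V × V)).filter fun p => D.graph.Adj p.1 p.2).card := by
    rw [← SimpleGraph.coe_edgeFinset, Set.ncard_coe_finset,
      ← SimpleGraph.sum_degrees_eq_twice_card_edges, card_filter, sum_product]
    refine Finset.sum_congr rfl fun v _ => ?_
    rw [← SimpleGraph.card_neighborFinset_eq_degree, SimpleGraph.neighborFinset_eq_filter,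
      card_filter]
  have h3 : (2 * D.graph.edgeSet.ncard : ℝ) ≤ 2 * M * (Fintype.card V : ℝ) := by
    rw [card_univ, ← h2] at h1
    exact_mod_cast h1
  rcases Nat.eq_zero_or_pos (Fintype.card V) with h0 | h0
  · have : D.graph.edgeSet.ncard = 0 := by
      rw [h0] at h3
      simp only [Nat.cast_zero, mul_zero] at h3
      have h4 : (D.graph.edgeSet.ncard : ℝ) ≤ 0 := by linarith
      exact_mod_cast le_antisymm h4 (Nat.cast_nonneg _)
    rw [this]
    simp only [Nat.cast_zero]
    positivity
  · have hn0 : (0 : ℝ) < Fintype.card V := by exact_mod_cast h0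
    rw [Real.rpow_add hn0, Real.rpow_one]
    calc (D.graph.edgeSet.ncard : ℝ) ≤ M * (Fintype.card V : ℝ) := by linarith
      _ = _ := by rw [hM]; ring

end Pool.Agent.H64.LocalPlanar
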