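import Pool.Agent.H64.Sub4
import Pool.Graph.R_pool_sql_team_seeded_620a6dc7.Helper234_Grid.Topo

/-!
# Locally planar topological graphs: definitions and the subdivided `K₅`
-/

set_option autoImplicit false

namespace Pool.Agent.H64.LocalPlanar

open Pool.Agent.Helper234_Grid

/-- The topological graph `D` is simple: every two different edges have at most one point in
common. -/
def Simple {V : Type} (D : TopologicalGraph V) : Prop :=
  ∀ e ∈ D.graph.edgeSet, ∀ f ∈ D.graph.edgeSet, e ≠ f → (D.arc e ∩ D.arc f).Subsingleton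

/-- The topological graph `D` is `k`-locally planar: no path of length at most `k` has two
edges that cross each other. -/
def LocallyPlanar {V : Type} (D : TopologicalGraph V) (k : ℕ) : Prop :=
  ∀ (u v : V) (p : D.graph.Walk u v), p.IsPath → p.length ≤ k →
    ∀ e ∈ p.edges, ∀ f ∈ p.edges, ¬ D.Cross e f

/-- The maximum number of edges of a simple `k`-locally planar topological graph with `n`
vertices. -/
noncomputable def eStar (k n : ℕ) : ℕ :=
  sSup {m : ℕ | ∃ D : TopologicalGraph (Fin n), Simple D ∧ LocallyPlanar D k ∧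
    D.graph.edgeSet.ncard = m}

variable {V : Type}

theorem LocallyPlanar.mono {D : TopologicalGraph V} {k l : ℕ} (h : LocallyPlanar D k)
    (hl : l ≤ k) : LocallyPlanar D l := fun u v p hp hpl => h u v p hp (hpl.trans hl)

/-- the first and the last edge of a path of length four do not cross -/
theorem path4 {D : TopologicalGraph V} (hD : LocallyPlanar D 4) {a b c d e : V}
    (hab : D.graph.Adj a b) (hbc : D.graph.Adj b c) (hcd : D.graph.Adj c d)
    (hde : D.graph.Adj d e) (hac : a ≠ c) (had : a ≠ d) (hae : a ≠ e) (hbd : b ≠ d)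
    (hbe : b ≠ e) (hce : c ≠ e) : ¬ D.Cross s(a, b) s(d, e) := by
  refine hD a e (.cons hab (.cons hbc (.cons hcd (.cons hde .nil)))) ?_ ?_ _ ?_ _ ?_
  · simp only [SimpleGraph.Walk.cons_isPath_iff, SimpleGraph.Walk.isPath_iff_nil, SimpleGraph.Walk.nil_nil,
      SimpleGraph.Walk.support_cons, SimpleGraph.Walk.support_nil, List.mem_cons,
      List.not_mem_nil, or_false, true_and]
    refine ⟨⟨⟨hde.ne, ?_⟩, ?_⟩, ?_⟩
    · rintro (h | h)
      · exact hcd.ne h
      · exact hce h
    · rintro (h | h | h)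
      · exact hbc.ne h
      · exact hbd h
      · exact hbe h
    · rintro (h | h | h | h)
      · exact hab.ne h
      · exact hac h
      · exact had h
      · exact hae h
  · simp
  · simp
  · simp

/-- vertex-disjoint edges that do not cross are disjoint -/
theorem arc_disjoint {D : TopologicalGraph V} {a b c d : V} (hab : D.graph.Adj a b)
    (hcd : D.graph.Adj c d) (hac : a ≠ c) (had : a ≠ d) (hbc : b ≠ c) (hbd : b ≠ d)
    (h : ¬ D.Cross s(a, b) s(c, d)) : Disjoint (D.arc s(a, b)) (D.arc s(c, d)) := by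
  rw [Set.disjoint_left]
  intro z hz hz'
  refine h ⟨?_, z, hz, hz', ?_, ?_⟩
  · intro he
    rw [Sym2.eq_iff] at he
    rcases he with ⟨h1, -⟩ | ⟨h1, -⟩
    · exact hac h1
    · exact had h1
  · intro w hw hzw
    subst hzw
    have h2 := D.avoid _ ((SimpleGraph.mem_edgeSet _).2 hcd) w hz'
    rw [Sym2.mem_iff] at hw h2
    rcases hw with rfl | rfl <;> rcases h2 with h2 | h2
    · exact hac h2
    · exact had h2
    · exact hbc h2
    · exact hbd h2
  · intro w hw hzw
    subst hzw
    have h2 := D.avoid _ ((SimpleGraph.mem_edgeSet _).2 hab) w hz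
    rw [Sym2.mem_iff] at hw h2
    rcases hw with rfl | rfl <;> rcases h2 with h2 | h2
    · exact hac h2.symm
    · exact hbc h2.symm
    · exact had h2.symm
    · exact hbd h2.symm

/-- a `4`-locally planar topological graph contains no subdivided `K₅` -/
theorem no_K5 [DecidableEq V] {D : TopologicalGraph V} (hD : LocallyPlanar D 4)
    (A B : Finset V) (hAB : Disjoint A B) : ¬ Sub.K5 D.graph.Adj A B := by
  rintro ⟨x, hx, hxA, M₀, hM₀, hM₀'⟩
  -- symmetric version of the subdividing vertices
  let M : Fin 5 → Fin 5 → V := fun i j => M₀ (min i j) (max i j)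
  have hMsymm : ∀ i j, M i j = M j i := fun i j => by simp only [M, min_comm, max_comm]
  have hlt : ∀ i j : Fin 5, i ≠ j → min i j < max i j := fun i j h => by
    rcases lt_or_gt_of_ne h with h | h
    · rw [min_eq_left h.le, max_eq_right h.le]; exact h
    · rw [min_eq_right h.le, max_eq_left h.le]; exact h
  have hMB : ∀ i j, i ≠ j → M i j ∈ B := fun i j h => (hM₀ _ _ (hlt i j h)).1
  have hMadj : ∀ i j, i ≠ j → D.graph.Adj (x i) (M i j) := fun i j h => by
    rcases lt_or_gt_of_ne h with h | h
    · have := (hM₀ i j h).2.1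
      simp only [M]
      rw [min_eq_left h.le, max_eq_right h.le]; exact this
    · have := (hM₀ j i h).2.2
      simp only [M]
      rw [min_eq_right h.le, max_eq_left h.le]; exact this
  have hMne : ∀ i j k, i ≠ j → x k ≠ M i j := fun i j k h he =>
    Finset.disjoint_left.1 hAB (hxA k) (he ▸ hMB i j h)
  have hMinj : ∀ i j k l, i ≠ j → k ≠ l → (i ≠ k ∧ i ≠ l ∨ j ≠ k ∧ j ≠ l) → M i j ≠ M k l := by
    intro i j k l hij hkl hd he
    obtain ⟨h1, h2⟩ := hM₀' _ _ _ _ (hlt i j hij) (hlt k l hkl) he
    have h3 : (i = k ∧ j = l) ∨ (i = l ∧ j = k) := by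
      rcases le_total i j with h | h <;> rcases le_total k l with h' | h'
      · rw [min_eq_left h, min_eq_left h'] at h1
        rw [max_eq_right h, max_eq_right h'] at h2
        exact Or.inl ⟨h1, h2⟩
      · rw [min_eq_left h, min_eq_right h'] at h1
        rw [max_eq_right h, max_eq_left h'] at h2
        exact Or.inr ⟨h1, h2⟩
      · rw [min_eq_right h, min_eq_left h'] at h1
        rw [max_eq_left h, max_eq_right h'] at h2
        exact Or.inr ⟨h2, h1⟩
      · rw [min_eq_right h, min_eq_right h'] at h1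
        rw [max_eq_left h, max_eq_left h'] at h2
        exact Or.inl ⟨h2, h1⟩
    rcases h3 with ⟨rfl, rfl⟩ | ⟨rfl, rfl⟩
    · rcases hd with h | h
      · exact h.1 rfl
      · exact h.2 rfl
    · rcases hd with h | h
      · exact h.2 rfl
      · exact h.1 rfl
  -- half-edges of independent pairs are disjoint
  have key : ∀ a b c d : Fin 5, a ≠ b → c ≠ d → a ≠ c → a ≠ d → b ≠ c → b ≠ d →
      Disjoint (D.arc s(x a, M a b)) (D.arc s(x c, M c d)) := by
    intro a b c d hab hcd hac had hbc hbd
    refine arc_disjoint (hMadj a b hab) (hMadj c d hcd) (fun h => hac (hx h)) (hMne _ _ _ hcd)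
      (fun h => hMne _ _ _ hab h.symm) (hMinj a b c d hab hcd (Or.inl ⟨hac, had⟩)) ?_
    rw [Sym2.eq_swap]
    refine path4 hD (hMadj a b hab).symm (hMadj a c hac) ?_ (hMadj c d hcd) ?_ ?_ ?_ ?_ ?_ ?_
    · rw [hMsymm]; exact (hMadj c a hac.symm).symm
    · exact hMinj a b a c hab hac (Or.inr ⟨hab.symm, hbc⟩)
    · exact fun h => hMne _ _ _ hab h.symm
    · exact hMinj a b c d hab hcd (Or.inl ⟨hac, had⟩)
    · exact fun h => hac (hx h)
    · exact hMne _ _ _ hcd
    · exact hMinj a c c d hac hcd (Or.inl ⟨hac, had⟩)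
  let e : ℝ × ℝ → ℂ := Complex.equivRealProdCLM.symm
  have hec : Continuous e := Complex.equivRealProdCLM.symm.continuous
  have hei : Function.Injective e := Complex.equivRealProdCLM.symm.injective
  refine Pool.Agent.Helper479.Bond.VK.k5_joined (fun i => e (D.pos (x i)))
    (fun i j => e '' (D.arc s(x i, M i j) ∪ D.arc s(x j, M j i))) ?_ ?_
  · intro i j hij
    have hne : i ≠ j := ne_of_lt hij
    have h1 := joinedIn_arc D (hMadj i j hne)
    have h2 := joinedIn_arc D (hMadj j i hne.symm)
    rw [hMsymm j i] at h2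
    have h3 : JoinedIn (D.arc s(x i, M i j) ∪ D.arc s(x j, M j i)) (D.pos (x i)) (D.pos (x j)) := by
      rw [hMsymm j i]
      exact (h1.mono Set.subset_union_left).trans ((h2.mono Set.subset_union_right).symm)
    exact ⟨h3.somePath.map hec, fun t => ⟨_, h3.somePath_mem t, rfl⟩⟩
  · intro a b c d hab hcd hac had hbc hbd
    rw [Set.disjoint_image_iff hei]
    have hab' := ne_of_lt hab
    have hcd' := ne_of_lt hcd
    refine Set.disjoint_union_left.2 ⟨Set.disjoint_union_right.2 ⟨?_, ?_⟩,
      Set.disjoint_union_right.2 ⟨?_, ?_⟩⟩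
    · exact key a b c d hab' hcd' hac had hbc hbd
    · exact key a b d c hab' hcd'.symm had hac hbd hbc
    · exact key b a c d hab'.symm hcd' hbc hbd hac had
    · exact key b a d c hab'.symm hcd'.symm hbd hbc had hac

/-- the bound in terms of integers -/
theorem seventh_power [Fintype V] (D : TopologicalGraph V) (hD : LocallyPlanar D 4) :
    D.graph.edgeSet.ncard ^ 7 ≤
      128 * 5000 * (17 ^ 8 * 54 * 144 ^ 4) * Fintype.card V ^ 10 := by
  classical
  exact Sub.extremal D.graph _ le_rfl (fun A B hAB => no_K5 hD A B hAB)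

/-- the bound with a real exponent -/
theorem bound [Fintype V] (D : TopologicalGraph V) (hD : LocallyPlanar D 4) :
    (D.graph.edgeSet.ncard : ℝ) ≤ 10 ^ 4 * (Fintype.card V : ℝ) ^ ((10 : ℝ) / 7) := by
  have h1 : (D.graph.edgeSet.ncard : ℝ) ^ 7 ≤
      128 * 5000 * (17 ^ 8 * 54 * 144 ^ 4) * (Fintype.card V : ℝ) ^ 10 := by
    exact_mod_cast seventh_power D hD
  have h2 : (((10 : ℝ) ^ 4) * (Fintype.card V : ℝ) ^ ((10 : ℝ) / 7)) ^ 7 =
      (10 ^ 4) ^ 7 * (Fintype.card V : ℝ) ^ 10 := by
    rw [mul_pow, ← Real.rpow_natCast ((Fintype.card V : ℝ) ^ ((10 : ℝ) / 7)) 7,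
      ← Real.rpow_mul (by positivity)]
    norm_num
  refine le_of_pow_le_pow_left₀ (n := 7) (by norm_num) (by positivity) ?_
  rw [h2]
  refine h1.trans (mul_le_mul_of_nonneg_right ?_ (by positivity))
  norm_num

end Pool.Agent.H64.LocalPlanar
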