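import Mathlib

/-!
# Subdivisions of `K₅`: light and heavy pairs
-/

set_option autoImplicit false

namespace Pool.Agent.H64.Sub

open Finset Classical

variable {α β : Type*}

/-- common neighbours of `x` and `y` in `B` -/
noncomputable def cn (R : α → β → Prop) (B : Finset β) (x y : α) : Finset β :=
  B.filter fun b => R x b ∧ R y b

/-- neighbours of `b` in `A` -/
noncomputable def nA (R : α → β → Prop) (A : Finset α) (b : β) : Finset α :=
  A.filter fun x => R x b

/-- neighbours of `x` in `B` -/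
noncomputable def nB (R : α → β → Prop) (B : Finset β) (x : α) : Finset β :=
  B.filter fun b => R x b

/-- a light pair: distinct, with between one and nine common neighbours -/
def Light (R : α → β → Prop) (B : Finset β) (x y : α) : Prop :=
  x ≠ y ∧ 1 ≤ (cn R B x y).card ∧ (cn R B x y).card ≤ 9

/-- a heavy pair: distinct, with at least ten common neighbours -/
def Heavy (R : α → β → Prop) (B : Finset β) (x y : α) : Prop :=
  x ≠ y ∧ 10 ≤ (cn R B x y).card

/-- a subdivided complete graph on five branch vertices in `A`, with the subdividing vertices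
in `B` -/
def K5 (R : α → β → Prop) (A : Finset α) (B : Finset β) : Prop :=
  ∃ x : Fin 5 → α, Function.Injective x ∧ (∀ i, x i ∈ A) ∧ ∃ M : Fin 5 → Fin 5 → β,
    (∀ i j, i < j → M i j ∈ B ∧ R (x i) (M i j) ∧ R (x j) (M i j)) ∧
    ∀ i j k l, i < j → k < l → M i j = M k l → i = k ∧ j = l

theorem K5.mono {R : α → β → Prop} {A A' : Finset α} {B B' : Finset β} (hA : A ⊆ A')
    (hB : B ⊆ B') (h : K5 R A B) : K5 R A' B' := by
  obtain ⟨x, hx, hxA, M, hM, hM'⟩ := h
  exact ⟨x, hx, fun i => hA (hxA i), M, fun i j hij => ⟨hB (hM i j hij).1, (hM i j hij).2⟩, hM'⟩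

theorem cn_symm (R : α → β → Prop) (B : Finset β) (x y : α) : cn R B x y = cn R B y x := by
  ext b; simp only [cn, mem_filter]; tauto

theorem Light.symm {R : α → β → Prop} {B : Finset β} {x y : α} (h : Light R B x y) :
    Light R B y x := by
  unfold Light at *
  rw [cn_symm]
  exact ⟨h.1.symm, h.2⟩

theorem Heavy.symm {R : α → β → Prop} {B : Finset β} {x y : α} (h : Heavy R B x y) :
    Heavy R B y x := by
  unfold Heavy at *
  rw [cn_symm]
  exact ⟨h.1.symm, h.2⟩

/-- five pairwise heavy vertices give a subdivided `K₅` -/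
theorem K5_of_heavy (R : α → β → Prop) (A : Finset α) (B : Finset β) (x : Fin 5 → α)
    (hxA : ∀ i, x i ∈ A) (hh : ∀ i j, i < j → Heavy R B (x i) (x j)) : K5 R A B := by
  have hinj : Function.Injective x := by
    intro i j hij
    rcases lt_trichotomy i j with h | h | h
    · exact absurd hij (hh i j h).1
    · exact h
    · exact absurd hij.symm (hh j i h).1
  let ι := {p : Fin 5 × Fin 5 // p.1 < p.2}
  have hcard : Fintype.card ι = 10 := by
    simp only [ι]
    rw [Fintype.card_subtype]
    decide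
  let t : ι → Finset β := fun p => cn R B (x p.1.1) (x p.1.2)
  have hall : ∀ s : Finset ι, #s ≤ #(s.biUnion t) := by
    intro s
    rcases s.eq_empty_or_nonempty with rfl | ⟨p, hp⟩
    · simp
    · calc #s ≤ Fintype.card ι := card_le_univ s
        _ = 10 := hcard
        _ ≤ #(t p) := (hh _ _ p.2).2
        _ ≤ #(s.biUnion t) := card_le_card (subset_biUnion_of_mem t hp)
  obtain ⟨f, hf, hft⟩ := (Finset.all_card_le_biUnion_card_iff_exists_injective t).1 hall
  refine ⟨x, hinj, hxA, fun i j => if h : i < j then f ⟨(i, j), h⟩ else f ⟨(0, 1), by decide⟩,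
    ?_, ?_⟩
  · intro i j hij
    have := hft ⟨(i, j), hij⟩
    simp only [t, cn, mem_filter] at this
    simp only [hij, dif_pos]
    exact ⟨this.1, this.2.1, this.2.2⟩
  · intro i j k l hij hkl h
    simp only [hij, hkl, dif_pos] at h
    have := hf h
    have h' := Subtype.mk.inj this
    exact ⟨(Prod.mk.inj h').1, (Prod.mk.inj h').2⟩

/-- five pairwise light vertices no three of which have a common neighbour give a
subdivided `K₅` -/
theorem K5_of_light (R : α → β → Prop) (A : Finset α) (B : Finset β) (X : Finset α)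
    (hX : #X = 5) (hXA : X ⊆ A) (hl : ∀ x ∈ X, ∀ y ∈ X, x ≠ y → Light R B x y)
    (h3 : ∀ x ∈ X, ∀ y ∈ X, ∀ z ∈ X, x ≠ y → y ≠ z → x ≠ z → ∀ b ∈ B, R x b → R y b → ¬ R z b) :
    K5 R A B := by
  let e := (X.equivFinOfCardEq hX).symm
  let x : Fin 5 → α := fun i => (e i : α)
  have hx : Function.Injective x := fun i j hij => e.injective (Subtype.ext hij)
  have hxX : ∀ i, x i ∈ X := fun i => (e i).2
  have hne : ∀ i j, i ≠ j → ∃ b, b ∈ B ∧ R (x i) b ∧ R (x j) b := by
    intro i j hij
    have h := (hl _ (hxX i) _ (hxX j) (fun h => hij (hx h))).2.1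
    obtain ⟨b, hb⟩ := card_pos.1 (lt_of_lt_of_le one_pos h)
    simp only [cn, mem_filter] at hb
    exact ⟨b, hb.1, hb.2.1, hb.2.2⟩
  obtain ⟨b0, -⟩ := hne 0 1 (by decide)
  let M : Fin 5 → Fin 5 → β := fun i j => if h : i ≠ j then (hne i j h).choose else b0
  have hM : ∀ i j, i < j → M i j ∈ B ∧ R (x i) (M i j) ∧ R (x j) (M i j) := by
    intro i j hij
    have h : i ≠ j := ne_of_lt hij
    simp only [M, dif_pos h]
    exact (hne i j h).choose_spec
  refine ⟨x, hx, fun i => hXA (hxX i), M, hM, ?_⟩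
  intro i j k l hij hkl h
  obtain ⟨hb, h1, h2⟩ := hM i j hij
  obtain ⟨-, h3', h4⟩ := hM k l hkl
  rw [← h] at h3' h4
  have key : ∀ p q r : Fin 5, p ≠ q → q ≠ r → p ≠ r → R (x p) (M i j) → R (x q) (M i j) →
      ¬ R (x r) (M i j) := fun p q r hpq hqr hpr =>
    h3 _ (hxX p) _ (hxX q) _ (hxX r) (fun h => hpq (hx h)) (fun h => hqr (hx h))
      (fun h => hpr (hx h)) _ hb
  have hij' := ne_of_lt hij
  have hkl' := ne_of_lt hkl
  by_cases hik : i = k
  · subst hik
    refine ⟨rfl, ?_⟩
    by_contra hjl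
    exact key i j l hij' hjl hkl' h1 h2 h4
  · exfalso
    by_cases hkj : k = j
    · subst hkj
      exact key i k l hij' hkl' (fun h => by subst h; exact absurd hij (not_lt.2 hkl.le)) h1 h2 h4
    · exact key i j k hij' (fun h => hkj h.symm) hik h1 h2 h3'

/-- Turán's theorem for `K₅`, for ordered pairs -/
theorem turan5 (N : Finset α) (H : α → α → Prop) (hs : ∀ x y, H x y → H y x)
    (hi : ∀ x, ¬ H x x)
    (hno : ¬ ∃ x : Fin 5 → α, (∀ i, x i ∈ N) ∧ ∀ i j, i < j → H (x i) (x j)) :
    4 * #((N ×ˢ N).filter fun p => H p.1 p.2) ≤ 3 * #N ^ 2 := by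
  let G : SimpleGraph N := { Adj := fun x y => H x y, symm := ⟨fun x y h => hs _ _ h⟩,
                             loopless := ⟨fun x => hi x⟩ }
  have hfree : G.CliqueFree (4 + 1) := by
    intro s hs'
    rw [SimpleGraph.isNClique_iff] at hs'
    obtain ⟨hc, h5⟩ := hs'
    let e := (s.equivFinOfCardEq h5).symm
    refine hno ⟨fun i => ((e i : N) : α), fun i => (e i : N).2, fun i j hij => ?_⟩
    have : (e i : N) ≠ (e j : N) := fun h => (ne_of_lt hij) (e.injective (Subtype.ext h))
    exact hc (e i).2 (e j).2 this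
  have h1 : 2 * 4 * #G.edgeFinset ≤ (4 - 1) * #N ^ 2 := by
    obtain ⟨H', _, maxH⟩ := SimpleGraph.exists_isTuranMaximal (V := N) (r := 4) (by norm_num)
    have h2 := maxH.2 hfree
    have h3 := ((SimpleGraph.isTuranMaximal_iff_nonempty_iso_turanGraph (by norm_num)).mp
      maxH).some.card_edgeFinset_eq
    have h4 := SimpleGraph.mul_card_edgeFinset_turanGraph_le (n := Fintype.card N) (r := 4)
    rw [Fintype.card_coe] at h4
    calc 2 * 4 * #G.edgeFinset ≤ 2 * 4 * #H'.edgeFinset := by
          refine Nat.mul_le_mul_left _ ?_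
          convert! h2
      _ ≤ _ := by
          rw [Fintype.card_coe] at h3
          rw [h3]
          convert! h4
  have h2 : #((N ×ˢ N).filter fun p => H p.1 p.2) = 2 * #G.edgeFinset := by
    rw [← SimpleGraph.sum_degrees_eq_twice_card_edges, card_filter, sum_product,
      ← Finset.sum_coe_sort N]
    refine Finset.sum_congr rfl fun x _ => ?_
    rw [← card_filter, ← SimpleGraph.card_neighborFinset_eq_degree]
    symm
    refine Finset.card_bij (fun y _ => (y : α)) ?_ ?_ ?_
    · intro y hy
      rw [SimpleGraph.mem_neighborFinset] at hy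
      exact mem_filter.2 ⟨y.2, hy⟩
    · intro y _ z _ h
      exact Subtype.ext h
    · intro y hy
      rw [mem_filter] at hy
      exact ⟨⟨y, hy.1⟩, by rw [SimpleGraph.mem_neighborFinset]; exact hy.2, rfl⟩
  omega

end Pool.Agent.H64.Sub
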