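import Pool.Agent.H64.Sub1

/-!
# Many light pairs, and the greedy embedding
-/

set_option autoImplicit false

namespace Pool.Agent.H64.Sub

open Finset Classical

variable {α β : Type*}

/-- in the neighbourhood of a single `b` many pairs are light -/
theorem light_local (R : α → β → Prop) (A : Finset α) (B : Finset β) (hno : ¬ K5 R A B)
    (b : β) (hb : b ∈ B) :
    #(nA R A b) ^ 2 ≤ 4 * #((nA R A b ×ˢ nA R A b).filter fun p => Light R B p.1 p.2)
      + 4 * #(nA R A b) := by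
  set N := nA R A b with hN
  have hNA : N ⊆ A := filter_subset _ _
  have hNb : ∀ x ∈ N, R x b := fun x hx => (mem_filter.1 hx).2
  have h1 := turan5 N (Heavy R B) (fun x y h => h.symm) (fun x h => h.1 rfl) (by
    rintro ⟨x, hx, hh⟩
    exact hno (K5_of_heavy R A B x (fun i => hNA (hx i)) hh))
  have h2 : (N ×ˢ N) ⊆ ((N ×ˢ N).filter fun p => Heavy R B p.1 p.2) ∪
      (((N ×ˢ N).filter fun p => Light R B p.1 p.2) ∪ (N.diag)) := by
    rintro ⟨x, y⟩ hp
    rw [mem_product] at hp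
    obtain ⟨hx, hy⟩ := hp
    rw [mem_union, mem_union, mem_filter, mem_filter, mem_diag, mem_product]
    by_cases hxy : x = y
    · exact Or.inr (Or.inr ⟨hx, hxy⟩)
    · have hpos : 1 ≤ #(cn R B x y) := by
        rw [Nat.succ_le_iff, card_pos]
        exact ⟨b, mem_filter.2 ⟨hb, hNb x hx, hNb y hy⟩⟩
      by_cases h9 : #(cn R B x y) ≤ 9
      · exact Or.inr (Or.inl ⟨⟨hx, hy⟩, hxy, hpos, h9⟩)
      · have h10 : 10 ≤ #(cn R B x y) := by omega
        exact Or.inl ⟨⟨hx, hy⟩, hxy, h10⟩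
  have h3 := (card_le_card h2).trans ((card_union_le _ _).trans
    (Nat.add_le_add_left (card_union_le _ _) _))
  rw [card_product, diag_card] at h3
  nlinarith

/-- among the vertices of `A` one has many light partners -/
theorem exists_light (R : α → β → Prop) (A : Finset α) (B : Finset β) (hA : A.Nonempty)
    (hno : ¬ K5 R A B) (S : ℕ) (hS : S = ∑ b ∈ B, #(nA R A b)) (h8 : 8 * #B ≤ S) :
    ∃ x ∈ A, S ^ 2 ≤ 72 * #B * #A * #(A.filter fun y => Light R B x y) := by
  set L := #((A ×ˢ A).filter fun p => Light R B p.1 p.2) with hL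
  have h1 : ∑ b ∈ B, #((nA R A b ×ˢ nA R A b).filter fun p => Light R B p.1 p.2) ≤ 9 * L := by
    have h2 : ∀ b ∈ B, #((nA R A b ×ˢ nA R A b).filter fun p => Light R B p.1 p.2) =
        ∑ p ∈ (A ×ˢ A).filter fun p => Light R B p.1 p.2, if R p.1 b ∧ R p.2 b then 1 else 0 := by
      intro b _
      rw [← card_filter, filter_filter]
      congr 1
      ext ⟨x, y⟩
      simp only [nA, mem_filter, mem_product]
      tauto
    rw [Finset.sum_congr rfl h2, Finset.sum_comm]
    calc _ ≤ ∑ p ∈ (A ×ˢ A).filter fun p => Light R B p.1 p.2, 9 := by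
          refine Finset.sum_le_sum fun p hp => ?_
          rw [← card_filter]
          exact (mem_filter.1 hp).2.2.2
      _ = 9 * L := by rw [sum_const, smul_eq_mul, mul_comm]
  have h2 : ∑ b ∈ B, #(nA R A b) ^ 2 ≤ 36 * L + 4 * S := by
    calc ∑ b ∈ B, #(nA R A b) ^ 2
        ≤ ∑ b ∈ B, (4 * #((nA R A b ×ˢ nA R A b).filter fun p => Light R B p.1 p.2)
            + 4 * #(nA R A b)) := Finset.sum_le_sum fun b hb => light_local R A B hno b hb
      _ = 4 * ∑ b ∈ B, #((nA R A b ×ˢ nA R A b).filter fun p => Light R B p.1 p.2)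
            + 4 * S := by rw [sum_add_distrib, ← mul_sum, ← mul_sum, ← hS]
      _ ≤ _ := by omega
  have h3 : S ^ 2 ≤ #B * ∑ b ∈ B, #(nA R A b) ^ 2 := by
    rw [hS]; exact sq_sum_le_card_mul_sum_sq
  have h4 : S ^ 2 ≤ 72 * #B * L := by
    have h5 : S ^ 2 ≤ #B * (36 * L + 4 * S) := h3.trans (Nat.mul_le_mul_left _ h2)
    have h6 : 8 * #B * S ≤ S * S := Nat.mul_le_mul_right _ h8
    nlinarith
  have h5 : L = ∑ x ∈ A, #(A.filter fun y => Light R B x y) := by
    rw [hL, card_filter, sum_product]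
    exact Finset.sum_congr rfl fun x _ => (card_filter _ _).symm
  obtain ⟨x, hx, hmax⟩ := exists_max_image A (fun x => #(A.filter fun y => Light R B x y)) hA
  refine ⟨x, hx, ?_⟩
  have h6 : L ≤ #A * #(A.filter fun y => Light R B x y) := by
    rw [h5]
    calc _ ≤ ∑ _x' ∈ A, #(A.filter fun y => Light R B x y) := Finset.sum_le_sum fun y hy => hmax y hy
      _ = _ := by rw [sum_const, smul_eq_mul]
  calc S ^ 2 ≤ 72 * #B * L := h4
    _ ≤ 72 * #B * (#A * #(A.filter fun y => Light R B x y)) := Nat.mul_le_mul_left _ h6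
    _ = _ := by ring

/-- the greedy choice of pairwise light vertices -/
theorem chain (R : α → β → Prop) (A : Finset α) (B : Finset β) (hno : ¬ K5 R A B)
    (Q : ℕ) (hQ : ∀ b ∈ B, #(nA R A b) ≤ 2 * Q) (D lam : ℝ) (hD0 : 0 ≤ D)
    (hD : ∀ x ∈ A, D ≤ #(nB R B x)) (hlam : lam * (72 * #B) = D ^ 2) (hlam0 : 0 < lam)
    (hlam1 : lam ≤ 1) (hA : A.Nonempty) (hB : B.Nonempty)
    (hc1 : 8 * (#B : ℝ) ≤ D * (lam / 2) ^ 3 * #A) (hc2 : 54 * (Q : ℝ) ≤ (lam / 2) ^ 4 * #A)
    (i : ℕ) (hi : i ≤ 4) :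
    ∃ X T : Finset α, #X = i ∧ X ⊆ A ∧ T ⊆ A ∧ (lam / 2) ^ i * #A ≤ #T ∧
      (∀ x ∈ X, ∀ y ∈ X, x ≠ y → Light R B x y) ∧ (∀ x ∈ X, ∀ y ∈ T, Light R B x y) ∧
      (∀ x ∈ X, ∀ y ∈ X, x ≠ y → ∀ z ∈ T, ∀ b ∈ B, R x b → R y b → ¬ R z b) ∧
      (∀ x ∈ X, ∀ y ∈ X, ∀ z ∈ X, x ≠ y → y ≠ z → x ≠ z →
        ∀ b ∈ B, R x b → R y b → ¬ R z b) := by
  induction i with
  | zero =>
    refine ⟨∅, A, rfl, empty_subset _, Subset.refl _, by simp, ?_, ?_, ?_, ?_⟩ <;> simp
  | succ i ih =>
    obtain ⟨X, T, hX, hXA, hTA, hT, h1, h2, h3, h4⟩ := ih (by omega)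
    have hA0 : (0 : ℝ) < #A := by exact_mod_cast card_pos.2 hA
    have hhalf0 : 0 < lam / 2 := by positivity
    have hhalf1 : lam / 2 ≤ 1 := by linarith
    have hTpos : 0 < #T := by
      have : (0 : ℝ) < #T := lt_of_lt_of_le (by positivity) hT
      exact_mod_cast this
    have hTne : T.Nonempty := card_pos.1 hTpos
    -- edges between `T` and `B`
    have hS : D * #T ≤ ((∑ b ∈ B, #(nA R T b) : ℕ) : ℝ) := by
      have e1 : ∑ b ∈ B, #(nA R T b) = ∑ x ∈ T, #(nB R B x) := by
        simp only [nA, nB, card_filter]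
        exact Finset.sum_comm
      rw [e1]
      push_cast
      calc D * #T = ∑ _x ∈ T, D := by rw [sum_const, nsmul_eq_mul, mul_comm]
        _ ≤ _ := Finset.sum_le_sum fun x hx => hD x (hTA hx)
    have hpow : (lam / 2) ^ 3 ≤ (lam / 2) ^ i :=
      pow_le_pow_of_le_one hhalf0.le hhalf1 (by omega)
    have h8 : 8 * #B ≤ ∑ b ∈ B, #(nA R T b) := by
      have : (8 * #B : ℝ) ≤ ((∑ b ∈ B, #(nA R T b) : ℕ) : ℝ) := by
        calc (8 * #B : ℝ) ≤ D * (lam / 2) ^ 3 * #A := hc1
          _ ≤ D * (lam / 2) ^ i * #A := by gcongr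
          _ = D * ((lam / 2) ^ i * #A) := by ring
          _ ≤ D * #T := by gcongr
          _ ≤ _ := hS
      exact_mod_cast this
    obtain ⟨x, hxT, hx⟩ := exists_light R T B hTne (fun h => hno (h.mono hTA (Subset.refl _)))
      _ rfl h8
    set W := T.filter fun y => Light R B x y with hW
    have hWbig : lam * #T ≤ #W := by
      have e1 : (D * #T) ^ 2 ≤ 72 * #B * #T * #W := by
        calc (D * #T) ^ 2 ≤ ((∑ b ∈ B, #(nA R T b) : ℕ) : ℝ) ^ 2 := by
              gcongr
          _ ≤ _ := by exact_mod_cast hx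
      have hT' : (0 : ℝ) < #T := by exact_mod_cast hTpos
      have e2 : D ^ 2 * #T ≤ 72 * #B * #W := by
        have : (D ^ 2 * #T) * #T ≤ (72 * #B * #W) * #T := by nlinarith
        exact le_of_mul_le_mul_right this hT'
      have hB0 : (0 : ℝ) < 72 * #B := by
        have : (0 : ℝ) < #B := by exact_mod_cast card_pos.2 hB
        linarith
      rw [← hlam] at e2
      have : (72 * #B : ℝ) * (lam * #T) ≤ (72 * #B) * #W := by nlinarith
      exact le_of_mul_le_mul_left this hB0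
    set E := X.biUnion fun x' => (cn R B x' x).biUnion (nA R A) with hE
    have hQT : 54 * (Q : ℝ) ≤ lam / 2 * #T := by
      calc 54 * (Q : ℝ) ≤ (lam / 2) ^ 4 * #A := hc2
        _ ≤ (lam / 2) ^ (i + 1) * #A := by
            have : (lam / 2) ^ 4 ≤ (lam / 2) ^ (i + 1) :=
              pow_le_pow_of_le_one hhalf0.le hhalf1 (by omega)
            gcongr
        _ = lam / 2 * ((lam / 2) ^ i * #A) := by ring
        _ ≤ lam / 2 * #T := by gcongr
    have hEc : #E ≤ 54 * Q := by
      calc #E ≤ ∑ x' ∈ X, #((cn R B x' x).biUnion (nA R A)) := card_biUnion_le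
        _ ≤ ∑ x' ∈ X, 18 * Q := by
            refine Finset.sum_le_sum fun x' hx' => ?_
            calc #((cn R B x' x).biUnion (nA R A)) ≤ ∑ b ∈ cn R B x' x, #(nA R A b) :=
                  card_biUnion_le
              _ ≤ ∑ b ∈ cn R B x' x, 2 * Q :=
                  Finset.sum_le_sum fun b hb => hQ b (mem_filter.1 hb).1
              _ = #(cn R B x' x) * (2 * Q) := by rw [sum_const, smul_eq_mul]
              _ ≤ 9 * (2 * Q) := Nat.mul_le_mul_right _ (h2 x' hx' x hxT).2.2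
              _ = 18 * Q := by ring
        _ = #X * (18 * Q) := by rw [sum_const, smul_eq_mul]
        _ ≤ 3 * (18 * Q) := Nat.mul_le_mul_right _ (by omega)
        _ = 54 * Q := by ring
    have hxX : x ∉ X := fun h => (h2 x h x hxT).1 rfl
    refine ⟨insert x X, W \ E, by rw [card_insert_of_notMem hxX, hX], ?_, ?_, ?_, ?_, ?_, ?_, ?_⟩
    · exact insert_subset (hTA hxT) hXA
    · exact sdiff_subset.trans ((filter_subset _ _).trans hTA)
    · have e1 : #W ≤ #(W \ E) + #E := by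
        calc #W ≤ #((W \ E) ∪ E) := card_le_card (by
              intro z hz; by_cases h : z ∈ E
              · exact mem_union_right _ h
              · exact mem_union_left _ (mem_sdiff.2 ⟨hz, h⟩))
          _ ≤ _ := card_union_le _ _
      have e2 : (#W : ℝ) ≤ #(W \ E) + 54 * Q := by
        have : #W ≤ #(W \ E) + 54 * Q := by omega
        exact_mod_cast this
      calc (lam / 2) ^ (i + 1) * #A = lam / 2 * ((lam / 2) ^ i * #A) := by ring
        _ ≤ lam / 2 * #T := by gcongr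
        _ = lam * #T - lam / 2 * #T := by ring
        _ ≤ #W - 54 * Q := by linarith
        _ ≤ #(W \ E) := by linarith
    · intro y hy z hz hyz
      rw [mem_insert] at hy hz
      rcases hy with rfl | hy <;> rcases hz with rfl | hz
      · exact absurd rfl hyz
      · exact (h2 z hz y hxT).symm
      · exact h2 y hy z hxT
      · exact h1 y hy z hz hyz
    · intro y hy z hz
      rw [mem_insert] at hy
      have hzW := (mem_sdiff.1 hz).1
      rw [hW, mem_filter] at hzW
      rcases hy with rfl | hy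
      · exact hzW.2
      · exact h2 y hy z hzW.1
    · intro y hy y' hy' hyy z hz b hb hyb hyb' hzb
      rw [mem_insert] at hy hy'
      obtain ⟨hzW, hzE⟩ := mem_sdiff.1 hz
      rw [hW, mem_filter] at hzW
      have hex : ∀ y ∈ X, R y b → R x b → False := by
        intro y hy h h'
        refine hzE ?_
        rw [hE, mem_biUnion]
        refine ⟨y, hy, ?_⟩
        rw [mem_biUnion]
        exact ⟨b, mem_filter.2 ⟨hb, h, h'⟩, mem_filter.2 ⟨hTA hzW.1, hzb⟩⟩
      rcases hy with rfl | hy <;> rcases hy' with rfl | hy'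
      · exact hyy rfl
      · exact hex y' hy' hyb' hyb
      · exact hex y hy hyb hyb'
      · exact h3 y hy y' hy' hyy z hzW.1 b hb hyb hyb' hzb
    · intro y hy y' hy' y'' hy'' h12 h23 h13 b hb r1 r2 r3
      rw [mem_insert] at hy hy' hy''
      rcases hy with rfl | hy <;> rcases hy' with rfl | hy' <;> rcases hy'' with rfl | hy''
      · exact h12 rfl
      · exact h12 rfl
      · exact h13 rfl
      · exact h3 y' hy' y'' hy'' h23 y hxT b hb r2 r3 r1
      · exact h23 rfl
      · exact h3 y hy y'' hy'' h13 y' hxT b hb r1 r3 r2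
      · exact h3 y hy y' hy' h12 y'' hxT b hb r1 r2 r3
      · exact h4 y hy y' hy' y'' hy'' h12 h23 h13 b hb r1 r2 r3

/-- with the conditions of `chain` there is a subdivided `K₅` -/
theorem K5_of_params (R : α → β → Prop) (A : Finset α) (B : Finset β)
    (Q : ℕ) (hQ : ∀ b ∈ B, #(nA R A b) ≤ 2 * Q) (D lam : ℝ) (hD0 : 0 ≤ D)
    (hD : ∀ x ∈ A, D ≤ #(nB R B x)) (hlam : lam * (72 * #B) = D ^ 2) (hlam0 : 0 < lam)
    (hlam1 : lam ≤ 1) (hA : A.Nonempty) (hB : B.Nonempty)
    (hc1 : 8 * (#B : ℝ) ≤ D * (lam / 2) ^ 3 * #A) (hc2 : 54 * (Q : ℝ) ≤ (lam / 2) ^ 4 * #A) :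
    K5 R A B := by
  by_contra hno
  obtain ⟨X, T, hX, hXA, hTA, hT, h1, h2, h3, h4⟩ := chain R A B hno Q hQ D lam hD0 hD hlam hlam0
    hlam1 hA hB hc1 hc2 4 le_rfl
  have hTpos : 0 < #T := by
    have hA0 : (0 : ℝ) < #A := by exact_mod_cast card_pos.2 hA
    have : (0 : ℝ) < #T := lt_of_lt_of_le (by positivity) hT
    exact_mod_cast this
  obtain ⟨x, hxT⟩ := card_pos.1 hTpos
  have hxX : x ∉ X := fun h => (h2 x h x hxT).1 rfl
  refine hno (K5_of_light R A B (insert x X) (by rw [card_insert_of_notMem hxX, hX])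
    (insert_subset (hTA hxT) hXA) ?_ ?_)
  · intro y hy z hz hyz
    rw [mem_insert] at hy hz
    rcases hy with rfl | hy <;> rcases hz with rfl | hz
    · exact absurd rfl hyz
    · exact (h2 z hz y hxT).symm
    · exact h2 y hy z hxT
    · exact h1 y hy z hz hyz
  · intro y hy y' hy' y'' hy'' h12 h23 h13 b hb r1 r2 r3
    rw [mem_insert] at hy hy' hy''
    rcases hy with rfl | hy <;> rcases hy' with rfl | hy' <;> rcases hy'' with rfl | hy''
    · exact h12 rfl
    · exact h12 rfl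
    · exact h13 rfl
    · exact h3 y' hy' y'' hy'' h23 y hxT b hb r2 r3 r1
    · exact h23 rfl
    · exact h3 y hy y'' hy'' h13 y' hxT b hb r1 r3 r2
    · exact h3 y hy y' hy' h12 y'' hxT b hb r1 r2 r3
    · exact h4 y hy y' hy' y'' hy'' h12 h23 h13 b hb r1 r2 r3

end Pool.Agent.H64.Sub
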