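import Pool.Agent.H64.Sub2

/-!
# Regularisation, and the extremal number of the subdivided `K₅`
-/

set_option autoImplicit false

namespace Pool.Agent.H64.Sub

open Finset Classical

variable {α β : Type*}

theorem sum_nA_eq (R : α → β → Prop) (A : Finset α) (B : Finset β) :
    ∑ b ∈ B, #(nA R A b) = ∑ x ∈ A, #(nB R B x) := by
  simp only [nA, nB, card_filter]
  exact Finset.sum_comm

/-- an elementary inequality -/
theorem elem_ineq (s t : ℝ) (hs0 : 0 < s) (hs1 : s ≤ 1) (_ht0 : 0 ≤ t) (ht1 : t ≤ 1)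
    (h : (1 - t) ^ 7 ≤ (1 - s) ^ 6) : 6 / 49 * s ≤ t := by
  have h1 : 1 - 7 * t ≤ (1 - t) ^ 7 := by
    have := one_add_mul_le_pow (a := -t) (by linarith) 7
    norm_num at this
    have e : (1 - t) ^ 7 = (1 + -t) ^ 7 := by ring
    rw [e]; linarith
  have h2 : 1 + 6 * s ≤ (1 + s) ^ 6 := by
    have := one_add_mul_le_pow (a := s) (by linarith) 6
    norm_num at this
    linarith
  have h3 : (1 - s) ^ 6 * (1 + s) ^ 6 ≤ 1 := by
    rw [← mul_pow]
    apply pow_le_one₀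
    · nlinarith
    · nlinarith
  have h4 : (1 - s) ^ 6 * (1 + 6 * s) ≤ 1 := by
    have : 0 ≤ (1 - s) ^ 6 := by positivity
    nlinarith
  have h5 : (1 - 7 * t) * (1 + 6 * s) ≤ 1 := by
    have : 0 < 1 + 6 * s := by linarith
    nlinarith
  nlinarith

/-- pass to a part of `A` with large minimum degree -/
theorem regular (R : α → β → Prop) (A : Finset α) (B : Finset β)
    (hE : 8 * #B < ∑ b ∈ B, #(nA R A b)) :
    ∃ A' ⊆ A, A'.Nonempty ∧
      (0 : ℝ) < (∑ b ∈ B, #(nA R A' b) : ℕ) - 8 * #B ∧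
      (∀ x ∈ A', 6 / 49 * (((∑ b ∈ B, #(nA R A' b) : ℕ) - 8 * #B) / (#A' : ℝ)) ≤ #(nB R B x)) ∧
      (((∑ b ∈ B, #(nA R A b) : ℕ) : ℝ) - 8 * #B) ^ 7 / (#A : ℝ) ^ 6 ≤
        (((∑ b ∈ B, #(nA R A' b) : ℕ) : ℝ) - 8 * #B) ^ 7 / (#A' : ℝ) ^ 6 := by
  have hAne : A.Nonempty := by
    rw [nonempty_iff_ne_empty]
    rintro rfl
    simp [nA] at hE
  let f : Finset α → ℝ := fun A' => (((∑ b ∈ B, #(nA R A' b) : ℕ) : ℝ) - 8 * #B) ^ 7 / (#A' : ℝ) ^ 6
  have hE' : (0 : ℝ) < ((∑ b ∈ B, #(nA R A b) : ℕ) : ℝ) - 8 * #B := by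
    have : ((8 * #B : ℕ) : ℝ) < ((∑ b ∈ B, #(nA R A b) : ℕ) : ℝ) := by exact_mod_cast hE
    push_cast at this ⊢
    linarith
  obtain ⟨A', hA', hmax⟩ := exists_max_image (A.powerset.filter fun S => S.Nonempty) f
    ⟨A, mem_filter.2 ⟨mem_powerset.2 (Subset.refl _), hAne⟩⟩
  rw [mem_filter, mem_powerset] at hA'
  obtain ⟨hsub, hne⟩ := hA'
  have hfA : f A ≤ f A' := hmax A (mem_filter.2 ⟨mem_powerset.2 (Subset.refl _), hAne⟩)
  have ha0 : (0 : ℝ) < #A' := by exact_mod_cast card_pos.2 hne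
  have hfpos : 0 < f A := by
    have : (0 : ℝ) < #A := by exact_mod_cast card_pos.2 hAne
    simp only [f]
    positivity
  set e : ℝ := ((∑ b ∈ B, #(nA R A' b) : ℕ) : ℝ) - 8 * #B with he
  have hepos : 0 < e := by
    have h1 : 0 < e ^ 7 / (#A' : ℝ) ^ 6 := lt_of_lt_of_le hfpos hfA
    have h2 : 0 < e ^ 7 := by
      by_contra hcon
      push Not at hcon
      have : e ^ 7 / (#A' : ℝ) ^ 6 ≤ 0 := div_nonpos_of_nonpos_of_nonneg hcon (by positivity)
      linarith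
    exact (Odd.pow_pos_iff (by decide)).1 h2
  refine ⟨A', hsub, hne, hepos, ?_, hfA⟩
  intro x hx
  set d : ℝ := (#(nB R B x) : ℝ) with hd
  have hd0 : 0 ≤ d := by positivity
  by_cases hone : #A' = 1
  · -- a single vertex
    obtain ⟨y, rfl⟩ := card_eq_one.1 hone
    rw [mem_singleton] at hx
    subst hx
    have h1 : ∑ b ∈ B, #(nA R {x} b) = #(nB R B x) := by rw [sum_nA_eq]; simp
    rw [h1] at he
    have h2 : e ≤ d := by rw [he, hd]; have : (0 : ℝ) ≤ #B := by positivity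
                          linarith
    rw [hone]
    simp only [Nat.cast_one, div_one]
    linarith
  · have h2 : 2 ≤ #A' := by have := card_pos.2 hne; omega
    have herase : (A'.erase x).Nonempty := by
      rw [← card_pos, card_erase_of_mem hx]; omega
    have h3 := hmax (A'.erase x) (mem_filter.2 ⟨mem_powerset.2 ((erase_subset _ _).trans hsub),
      herase⟩)
    have h4 : (((∑ b ∈ B, #(nA R (A'.erase x) b) : ℕ) : ℝ)) =
        ((∑ b ∈ B, #(nA R A' b) : ℕ) : ℝ) - d := by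
      rw [sum_nA_eq, sum_nA_eq, ← add_sum_erase A' _ hx]
      push_cast
      ring
    have h5 : ((#(A'.erase x) : ℕ) : ℝ) = #A' - 1 := by
      rw [card_erase_of_mem hx, Nat.cast_sub (by omega)]; simp
    simp only [f, h4, h5] at h3
    rw [show ((∑ b ∈ B, #(nA R A' b) : ℕ) : ℝ) - d - 8 * #B = e - d by rw [he]; ring, ← he] at h3
    have ha2 : (2 : ℝ) ≤ #A' := by exact_mod_cast h2
    set a : ℝ := (#A' : ℝ) with ha
    by_contra hcon
    push Not at hcon
    set s : ℝ := 1 / a with hs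
    set t : ℝ := d / e with ht
    have hs0 : 0 < s := by positivity
    have hs1 : s ≤ 1 := by rw [hs, div_le_one ha0]; linarith
    have ht0 : 0 ≤ t := by positivity
    have hts : t < 6 / 49 * s := by
      rw [ht, div_lt_iff₀ hepos]
      calc d < 6 / 49 * (e / a) := hcon
        _ = 6 / 49 * s * e := by rw [hs]; ring
    have ht1 : t ≤ 1 := by linarith
    refine absurd (elem_ineq s t hs0 hs1 ht0 ht1 ?_) (not_le.2 hts)
    have ha1 : 0 < a - 1 := by linarith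
    rw [div_le_div_iff₀ (by positivity) (by positivity)] at h3
    have e1 : 1 - t = (e - d) / e := by rw [ht]; field_simp
    have e2 : 1 - s = (a - 1) / a := by rw [hs]; field_simp
    rw [e1, e2, div_pow, div_pow, div_le_div_iff₀ (by positivity) (by positivity)]
    have h6 : (e - d) ^ 7 * a ^ 6 ≤ (a - 1) ^ 6 * e ^ 7 := by linarith
    exact h6

/-- pass to a part of `B` with almost equal degrees -/
theorem dyadic (R : α → β → Prop) (A : Finset α) (B : Finset β) (n : ℕ) (hn : 1 ≤ n)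
    (hA : #A ≤ n) (hB : #B ≤ n) (e : ℕ) (he : e = ∑ b ∈ B, #(nA R A b)) :
    ∃ Q : ℕ, ∃ B' ⊆ B, 1 ≤ Q ∧ (∀ b ∈ B', Q ≤ #(nA R A b) ∧ #(nA R A b) ≤ 2 * Q) ∧
      e ^ 7 ≤ 5000 * n ^ 3 * ((∑ b ∈ B', #(nA R A b)) ^ 4 * Q ^ 3) := by
  let d : β → ℕ := fun b => #(nA R A b)
  have hd : ∀ b, d b ≤ n := fun b => (card_le_card (filter_subset _ _)).trans hA
  let E : ℕ → ℕ := fun q => ∑ b ∈ B.filter (fun b => q ≤ d b), d b
  obtain ⟨Q, hQ, hmax⟩ := exists_max_image (Icc 1 n) (fun q => E q ^ 4 * q ^ 3)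
    ⟨1, mem_Icc.2 ⟨le_rfl, hn⟩⟩
  rw [mem_Icc] at hQ
  have h1 : 8 * E (2 * Q) ^ 4 ≤ E Q ^ 4 := by
    by_cases h2 : 2 * Q ≤ n
    · have h3 := hmax (2 * Q) (mem_Icc.2 ⟨by omega, h2⟩)
      have h4 : 8 * E (2 * Q) ^ 4 * Q ^ 3 ≤ E Q ^ 4 * Q ^ 3 := by
        calc _ = E (2 * Q) ^ 4 * (2 * Q) ^ 3 := by ring
          _ ≤ _ := h3
      exact Nat.le_of_mul_le_mul_right h4 (by have := hQ.1; positivity)
    · have h3 : E (2 * Q) = 0 := by
        simp only [E]
        rw [filter_false_of_mem, sum_empty]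
        intro b _
        have := hd b
        omega
      rw [h3]; simp
  have h2 : 5 * E (2 * Q) ≤ 3 * E Q := by
    by_contra hcon
    push Not at hcon
    have h3 : (3 * E Q) ^ 4 < (5 * E (2 * Q)) ^ 4 := Nat.pow_lt_pow_left hcon (by norm_num)
    have h4 : 81 * E Q ^ 4 < 625 * E (2 * Q) ^ 4 := by
      calc 81 * E Q ^ 4 = (3 * E Q) ^ 4 := by ring
        _ < _ := h3
        _ = _ := by ring
    omega
  let B' := B.filter fun b => Q ≤ d b ∧ d b < 2 * Q
  have h3 : E Q = ∑ b ∈ B', d b + E (2 * Q) := by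
    simp only [E]
    rw [← sum_filter_add_sum_filter_not (B.filter fun b => Q ≤ d b) (fun b => d b < 2 * Q),
      filter_filter, filter_filter]
    congr 1
    refine Finset.sum_congr ?_ fun _ _ => rfl
    ext b
    simp only [mem_filter]
    constructor
    · rintro ⟨hb, h, h'⟩; exact ⟨hb, by omega⟩
    · rintro ⟨hb, h⟩; exact ⟨hb, by omega, by omega⟩
  have h4 : 2 * E Q ≤ 5 * ∑ b ∈ B', d b := by omega
  -- comparison with the first threshold
  set Q0 := e / (2 * n) + 1 with hQ0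
  have hen : e ≤ n * n := by
    rw [he]
    calc ∑ b ∈ B, #(nA R A b) ≤ ∑ b ∈ B, n := Finset.sum_le_sum fun b _ => hd b
      _ = #B * n := by rw [sum_const, smul_eq_mul]
      _ ≤ n * n := Nat.mul_le_mul_right _ hB
  have hQ0n : Q0 ≤ n := by
    have : e / (2 * n) ≤ n / 2 := by
      calc e / (2 * n) ≤ (n * n) / (2 * n) := Nat.div_le_div_right hen
        _ = n / 2 := by rw [Nat.mul_div_mul_right _ _ (by omega)]
    omega
  have h5 := hmax Q0 (mem_Icc.2 ⟨Nat.le_add_left 1 _, hQ0n⟩)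
  have h6 : e ≤ 2 * E Q0 := by
    have h7 : e = ∑ b ∈ B.filter (fun b => ¬ Q0 ≤ d b), d b + E Q0 := by
      rw [he, add_comm]
      exact (sum_filter_add_sum_filter_not B (fun b => Q0 ≤ d b) d).symm
    have h8 : ∑ b ∈ B.filter (fun b => ¬ Q0 ≤ d b), d b ≤ n * (e / (2 * n)) := by
      calc _ ≤ ∑ b ∈ B.filter (fun b => ¬ Q0 ≤ d b), e / (2 * n) := by
            refine Finset.sum_le_sum fun b hb => ?_
            have := (mem_filter.1 hb).2
            exact Nat.le_of_lt_succ (not_le.1 this)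
        _ = #(B.filter (fun b => ¬ Q0 ≤ d b)) * (e / (2 * n)) := by rw [sum_const, smul_eq_mul]
        _ ≤ n * (e / (2 * n)) :=
            Nat.mul_le_mul_right _ ((card_le_card (filter_subset _ _)).trans hB)
    have h9 : 2 * n * (e / (2 * n)) ≤ e := Nat.mul_div_le _ _
    have h10 : 2 * (n * (e / (2 * n))) ≤ e := by rw [← mul_assoc]; exact h9
    omega
  have h7 : e ≤ 2 * n * Q0 := (Nat.lt_mul_div_succ e (by omega)).le
  refine ⟨Q, B', filter_subset _ _, hQ.1, fun b hb => ?_, ?_⟩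
  · have := (mem_filter.1 hb).2
    exact ⟨this.1, this.2.le⟩
  · calc e ^ 7 = e ^ 4 * e ^ 3 := by ring
      _ ≤ (2 * E Q0) ^ 4 * (2 * n * Q0) ^ 3 := by gcongr
      _ = 128 * n ^ 3 * (E Q0 ^ 4 * Q0 ^ 3) := by ring
      _ ≤ 128 * n ^ 3 * (E Q ^ 4 * Q ^ 3) := Nat.mul_le_mul_left _ h5
      _ = 8 * n ^ 3 * ((2 * E Q) ^ 4 * Q ^ 3) := by ring
      _ ≤ 8 * n ^ 3 * ((5 * ∑ b ∈ B', d b) ^ 4 * Q ^ 3) := by gcongr
      _ = 5000 * n ^ 3 * ((∑ b ∈ B', d b) ^ 4 * Q ^ 3) := by ring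

end Pool.Agent.H64.Sub
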