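import Pool.Agent.H64.Sub3

/-!
# The extremal number of the subdivided `K₅`
-/

set_option autoImplicit false

namespace Pool.Agent.H64.Sub

open Finset Classical

/-- a large cut -/
theorem exists_cut {V : Type*} (G : SimpleGraph V) (S : Finset V) :
    ∃ A B : Finset V, A ⊆ S ∧ B ⊆ S ∧ Disjoint A B ∧
      ∑ b ∈ S, #(nA G.Adj S b) ≤ 4 * ∑ b ∈ B, #(nA G.Adj A b) := by
  suffices h : ∃ A B : Finset V, A ∪ B = S ∧ Disjoint A B ∧
      ∑ b ∈ S, #(nA G.Adj S b) ≤ 4 * ∑ b ∈ B, #(nA G.Adj A b) by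
    obtain ⟨A, B, h1, h2, h3⟩ := h
    exact ⟨A, B, h1 ▸ subset_union_left, h1 ▸ subset_union_right, h2, h3⟩
  induction S using Finset.induction_on with
  | empty => exact ⟨∅, ∅, by simp, by simp, by simp⟩
  | insert v S hv ih =>
    obtain ⟨A, B, hAB, hd, h⟩ := ih
    have hvA : v ∉ A := fun h' => hv (hAB ▸ mem_union_left _ h')
    have hvB : v ∉ B := fun h' => hv (hAB ▸ mem_union_right _ h')
    have e0 : ∀ T : Finset V, nA G.Adj T v = nB G.Adj T v := by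
      intro T; ext x; simp only [nA, nB, mem_filter, G.adj_comm]
    -- adding `v` to the first argument
    have ins : ∀ T : Finset V, v ∉ T → ∀ b, #(nA G.Adj (insert v T) b) =
        #(nA G.Adj T b) + if G.Adj v b then 1 else 0 := by
      intro T hT b
      by_cases hb : G.Adj v b
      · rw [if_pos hb, nA, filter_insert, if_pos hb, card_insert_of_notMem, nA]
        intro h'; exact hT (mem_filter.1 h').1
      · rw [if_neg hb, nA, filter_insert, if_neg hb, nA, add_zero]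
    have cnt : ∀ T : Finset V, ∑ b ∈ T, (if G.Adj v b then 1 else 0) = #(nA G.Adj T v) := by
      intro T; rw [e0, nB, card_filter]
    have e1 : ∑ b ∈ insert v S, #(nA G.Adj (insert v S) b) =
        ∑ b ∈ S, #(nA G.Adj S b) + 2 * #(nA G.Adj S v) := by
      rw [sum_insert hv, ins S hv v, if_neg (G.loopless.irrefl v), Finset.sum_congr rfl
        (fun b _ => ins S hv b), sum_add_distrib, cnt]
      ring
    have e2 : #(nA G.Adj S v) = #(nA G.Adj A v) + #(nA G.Adj B v) := by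
      rw [← hAB]
      simp only [nA]
      rw [filter_union, card_union_of_disjoint (disjoint_filter_filter hd)]
    by_cases hc : #(nA G.Adj B v) ≤ #(nA G.Adj A v)
    · refine ⟨A, insert v B, by rw [union_insert, hAB], ?_, ?_⟩
      · rw [disjoint_insert_right]; exact ⟨hvA, hd⟩
      · rw [e1, sum_insert hvB, e2]
        omega
    · refine ⟨insert v A, B, by rw [insert_union, hAB], ?_, ?_⟩
      · rw [disjoint_insert_left]; exact ⟨hvB, hd⟩
      · rw [e1, e2, Finset.sum_congr rfl (fun b _ => ins A hvA b), sum_add_distrib, cnt]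
        omega

/-- the arithmetic of the bipartite bound -/
theorem params (n m Q e a cA es C : ℝ) (hn : 0 < n) (hm : 0 < m) (hQ : 0 < Q) (ha : 0 < a)
    (hcA : 0 < cA) (hcA' : cA ≤ n) (he16 : 16 * m ≤ e) (hQm : Q * m ≤ e) (h2Q : e ≤ 2 * Q * n)
    (hmain : C * n ^ 7 ≤ e ^ 4 * Q ^ 3) (hC1 : ((49 : ℝ) / 3) ^ 8 * 54 * 144 ^ 4 ≤ C)
    (hes : 0 < es) (hes' : es ≤ e - 8 * m)
    (hpot : (e - 8 * m) ^ 7 / cA ^ 6 ≤ es ^ 7 / a ^ 6) (D lam : ℝ) (hD : D = 6 / 49 * (es / a))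
    (hlam : lam = D ^ 2 / (72 * m)) :
    8 * m ≤ D * (lam / 2) ^ 3 * a ∧ 54 * Q ≤ (lam / 2) ^ 4 * a := by
  have he0 : 0 < e := by linarith
  have hhalfe : e / 2 ≤ e - 8 * m := by linarith
  have hem : 0 < e - 8 * m := by linarith
  have hp1 : (e / 2) ^ 7 / n ^ 6 ≤ es ^ 7 / a ^ 6 := by
    refine le_trans ?_ hpot
    apply div_le_div₀ (by positivity)
    · exact pow_le_pow_left₀ (by positivity) hhalfe 7
    · positivity
    · exact pow_le_pow_left₀ hcA.le hcA' 6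
  have hp2 : (e / 2) / n ≤ es / a := by
    have h1 : ((e - 8 * m) / cA) ^ 6 * es ≤ (es / a) ^ 6 * es := by
      calc ((e - 8 * m) / cA) ^ 6 * es
          ≤ ((e - 8 * m) / cA) ^ 6 * (e - 8 * m) :=
            mul_le_mul_of_nonneg_left hes' (by positivity)
        _ = (e - 8 * m) ^ 7 / cA ^ 6 := by
            rw [div_pow]; ring
        _ ≤ es ^ 7 / a ^ 6 := hpot
        _ = (es / a) ^ 6 * es := by rw [div_pow]; ring
    have h2 : ((e - 8 * m) / cA) ^ 6 ≤ (es / a) ^ 6 := le_of_mul_le_mul_right h1 hes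
    have h3 : (e - 8 * m) / cA ≤ es / a :=
      le_of_pow_le_pow_left₀ (n := 6) (by norm_num) (by positivity) h2
    refine le_trans ?_ h3
    exact div_le_div₀ hem.le hhalfe hcA hcA'
  have hk1 : 8 * (144 : ℝ) ^ 3 * m ^ 4 ≤ D ^ 7 * a := by
    have e1 : D ^ 7 * a = (6 / 49) ^ 7 * (es ^ 7 / a ^ 6) := by
      rw [hD]; field_simp
    have e2 : C * n ^ 6 / 2 ≤ e ^ 3 * Q ^ 4 := by
      have h1 : C * n ^ 7 ≤ (e ^ 3 * Q ^ 4) * (2 * n) := by
        have : e ^ 4 * Q ^ 3 ≤ e ^ 3 * Q ^ 3 * (2 * Q * n) := by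
          calc e ^ 4 * Q ^ 3 = e ^ 3 * Q ^ 3 * e := by ring
            _ ≤ _ := mul_le_mul_of_nonneg_left h2Q (by positivity)
        calc _ ≤ _ := hmain
          _ ≤ _ := this
          _ = _ := by ring
      have h2 : (C * n ^ 6 / 2) * (2 * n) ≤ (e ^ 3 * Q ^ 4) * (2 * n) := by
        calc (C * n ^ 6 / 2) * (2 * n) = C * n ^ 7 := by ring
          _ ≤ _ := h1
      exact le_of_mul_le_mul_right h2 (by positivity)
    have e3 : 8 * (144 : ℝ) ^ 3 * (Q * m) ^ 4 * n ^ 6 ≤ (3 / 49) ^ 7 * e ^ 7 * Q ^ 4 := by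
      calc 8 * (144 : ℝ) ^ 3 * (Q * m) ^ 4 * n ^ 6 ≤ 8 * (144 : ℝ) ^ 3 * e ^ 4 * n ^ 6 := by
            gcongr
        _ = (3 / 49) ^ 7 * e ^ 4 * (8 * (144 : ℝ) ^ 3 * (49 / 3) ^ 7 * n ^ 6) := by ring
        _ ≤ (3 / 49) ^ 7 * e ^ 4 * (C * n ^ 6 / 2) := by
            have : 8 * (144 : ℝ) ^ 3 * (49 / 3) ^ 7 ≤ C / 2 := by
              refine le_trans ?_ (div_le_div_of_nonneg_right hC1 (by norm_num))
              norm_num
            calc _ ≤ (3 / 49) ^ 7 * e ^ 4 * ((C / 2 : ℝ) * n ^ 6) := by gcongr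
              _ = _ := by ring
        _ ≤ (3 / 49) ^ 7 * e ^ 4 * (e ^ 3 * Q ^ 4) := by gcongr
        _ = _ := by ring
    have e4 : 8 * (144 : ℝ) ^ 3 * m ^ 4 ≤ (3 / 49) ^ 7 * e ^ 7 / n ^ 6 := by
      rw [le_div_iff₀ (by positivity)]
      have : (8 * (144 : ℝ) ^ 3 * m ^ 4 * n ^ 6) * Q ^ 4 ≤ ((3 / 49) ^ 7 * e ^ 7) * Q ^ 4 := by
        calc _ = 8 * (144 : ℝ) ^ 3 * (Q * m) ^ 4 * n ^ 6 := by ring
          _ ≤ _ := e3
      exact le_of_mul_le_mul_right this (by positivity)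
    rw [e1]
    calc _ ≤ (3 / 49) ^ 7 * e ^ 7 / n ^ 6 := e4
      _ = (6 / 49) ^ 7 * ((e / 2) ^ 7 / n ^ 6) := by ring
      _ ≤ _ := mul_le_mul_of_nonneg_left hp1 (by positivity)
  have hk2 : 54 * (144 : ℝ) ^ 4 * m ^ 4 * Q ≤ D ^ 8 * a := by
    have e1 : D ^ 8 * a = (6 / 49) ^ 8 * (es ^ 7 / a ^ 6) * (es / a) := by
      rw [hD]; field_simp
    have e3 : 54 * (144 : ℝ) ^ 4 * (Q * m) ^ 4 * Q * n ^ 7 ≤
        (3 / 49) ^ 8 * e ^ 8 * Q ^ 4 := by
      calc 54 * (144 : ℝ) ^ 4 * (Q * m) ^ 4 * Q * n ^ 7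
          ≤ 54 * (144 : ℝ) ^ 4 * e ^ 4 * Q * n ^ 7 := by gcongr
        _ = (3 / 49) ^ 8 * e ^ 4 * Q * (((49 : ℝ) / 3) ^ 8 * 54 * 144 ^ 4 * n ^ 7) := by ring
        _ ≤ (3 / 49) ^ 8 * e ^ 4 * Q * (C * n ^ 7) := by gcongr
        _ ≤ (3 / 49) ^ 8 * e ^ 4 * Q * (e ^ 4 * Q ^ 3) := by gcongr
        _ = _ := by ring
    have e4 : 54 * (144 : ℝ) ^ 4 * m ^ 4 * Q ≤ (3 / 49) ^ 8 * e ^ 8 / n ^ 7 := by
      rw [le_div_iff₀ (by positivity)]
      have : (54 * (144 : ℝ) ^ 4 * m ^ 4 * Q * n ^ 7) * Q ^ 4 ≤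
          ((3 / 49) ^ 8 * e ^ 8) * Q ^ 4 := by
        calc _ = 54 * (144 : ℝ) ^ 4 * (Q * m) ^ 4 * Q * n ^ 7 := by ring
          _ ≤ _ := e3
      exact le_of_mul_le_mul_right this (by positivity)
    rw [e1]
    calc _ ≤ (3 / 49) ^ 8 * e ^ 8 / n ^ 7 := e4
      _ = (6 / 49) ^ 8 * ((e / 2) ^ 7 / n ^ 6) * ((e / 2) / n) := by
          field_simp
          norm_num
      _ ≤ (6 / 49) ^ 8 * (es ^ 7 / a ^ 6) * (es / a) := by
          apply mul_le_mul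
          · exact mul_le_mul_of_nonneg_left hp1 (by positivity)
          · exact hp2
          · positivity
          · positivity
  have hhalf : lam / 2 = D ^ 2 / (144 * m) := by rw [hlam]; field_simp; ring
  constructor
  · rw [hhalf]
    have : D * (D ^ 2 / (144 * m)) ^ 3 * a = D ^ 7 * a / (144 * m) ^ 3 := by field_simp
    rw [this, le_div_iff₀ (by positivity)]
    calc 8 * m * (144 * m) ^ 3 = 8 * (144 : ℝ) ^ 3 * m ^ 4 := by ring
      _ ≤ _ := hk1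
  · rw [hhalf]
    have : (D ^ 2 / (144 * m)) ^ 4 * a = D ^ 8 * a / (144 * m) ^ 4 := by field_simp
    rw [this, le_div_iff₀ (by positivity)]
    calc 54 * Q * (144 * m) ^ 4 = 54 * (144 : ℝ) ^ 4 * m ^ 4 * Q := by ring
      _ ≤ _ := hk2

/-- the bipartite extremal bound -/
theorem bip {α β : Type*} (C1 : ℕ) (hC : 17 ^ 8 * 54 * 144 ^ 4 ≤ C1) (R : α → β → Prop)
    (A : Finset α) (B : Finset β) (n : ℕ)
    (hA : #A ≤ n) (hB : #B ≤ n) (hno : ¬ K5 R A B) :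
    (∑ b ∈ B, #(nA R A b)) ^ 7 ≤ 5000 * C1 * n ^ 10 := by
  by_contra hcon
  push Not at hcon
  obtain rfl | hn := Nat.eq_zero_or_pos n
  · have : A = ∅ := card_eq_zero.1 (by omega)
    subst this
    simp [nA] at hcon
  obtain ⟨Q, B', hB'B, hQ1, hQ, he⟩ := dyadic R A B n hn hA hB _ rfl
  obtain ⟨e, hedef⟩ : ∃ e : ℕ, e = ∑ b ∈ B', #(nA R A b) := ⟨_, rfl⟩
  rw [← hedef] at he
  have hmain : C1 * n ^ 7 < e ^ 4 * Q ^ 3 := by
    have : (5000 * n ^ 3) * (C1 * n ^ 7) < (5000 * n ^ 3) * (e ^ 4 * Q ^ 3) := by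
      calc (5000 * n ^ 3) * (C1 * n ^ 7) = 5000 * C1 * n ^ 10 := by ring
        _ < _ := hcon
        _ ≤ _ := he
    exact lt_of_mul_lt_mul_left this (Nat.zero_le _)
  have hno' : ¬ K5 R A B' := fun h => hno (h.mono (Subset.refl _) hB'B)
  have hmn : #B' ≤ n := (card_le_card hB'B).trans hB
  have hQm : Q * #B' ≤ e := by
    rw [hedef]
    calc Q * #B' = ∑ b ∈ B', Q := by rw [sum_const, smul_eq_mul, mul_comm]
      _ ≤ _ := Finset.sum_le_sum fun b hb => (hQ b hb).1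
  have h2Qm : e ≤ 2 * Q * n := by
    rw [hedef]
    calc _ ≤ ∑ b ∈ B', 2 * Q := Finset.sum_le_sum fun b hb => (hQ b hb).2
      _ = #B' * (2 * Q) := by rw [sum_const, smul_eq_mul]
      _ ≤ n * (2 * Q) := Nat.mul_le_mul_right _ hmn
      _ = _ := by ring
  have hQ16 : 16 ≤ Q := by
    by_contra hlt
    push Not at hlt
    have h1 : e ^ 4 * Q ^ 3 ≤ (2 * 16 * n) ^ 4 * 16 ^ 3 := by
      have : e ≤ 2 * 16 * n := h2Qm.trans (by gcongr)
      gcongr
    have h2 : (2 * 16 * n) ^ 4 * 16 ^ 3 ≤ C1 * n ^ 7 := by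
      have h3 : n ^ 4 ≤ n ^ 7 := Nat.pow_le_pow_right hn (by norm_num)
      calc (2 * 16 * n) ^ 4 * 16 ^ 3 = (32 ^ 4 * 16 ^ 3) * n ^ 4 := by ring
        _ ≤ C1 * n ^ 7 := Nat.mul_le_mul (le_trans (by norm_num) hC) h3
    omega
  have hm0 : 0 < #B' := by
    rw [Nat.pos_iff_ne_zero]
    intro h0
    have : B' = ∅ := card_eq_zero.1 h0
    rw [hedef, this] at hmain
    simp at hmain
  have he16 : 16 * #B' ≤ e := (Nat.mul_le_mul_right _ hQ16).trans hQm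
  obtain ⟨A', hA'A, hA'ne, hpos, hdeg, hpot⟩ := regular R A B' (by rw [← hedef]; omega)
  rw [← hedef] at hpot
  have hno'' : ¬ K5 R A' B' := fun h => hno' (h.mono hA'A (Subset.refl _))
  obtain ⟨S, hS⟩ : ∃ S : ℕ, S = ∑ b ∈ B', #(nA R A' b) := ⟨_, rfl⟩
  rw [← hS] at hpos hdeg hpot
  obtain ⟨m, hm⟩ : ∃ m : ℕ, m = #B' := ⟨_, rfl⟩
  rw [← hm] at hpos hdeg hpot hm0 he16 hQm
  obtain ⟨a, ha⟩ : ∃ a : ℕ, a = #A' := ⟨_, rfl⟩
  rw [← ha] at hdeg hpot
  have ha0 : 0 < a := by rw [ha]; exact card_pos.2 hA'ne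
  have ha0' : (0 : ℝ) < a := by exact_mod_cast ha0
  have hm0' : (0 : ℝ) < m := by exact_mod_cast hm0
  have hn0' : (0 : ℝ) < n := by exact_mod_cast hn
  have hQ0' : (0 : ℝ) < Q := by exact_mod_cast hQ1
  have hA0 : (0 : ℝ) < #A := by exact_mod_cast card_pos.2 (hA'ne.mono hA'A)
  have hSe : (S : ℝ) ≤ e := by
    have : S ≤ e := by
      rw [hS, hedef]
      exact Finset.sum_le_sum fun b _ => card_le_card (filter_subset_filter _ hA'A)
    exact_mod_cast this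
  have hC1 : ((49 : ℝ) / 3) ^ 8 * 54 * 144 ^ 4 ≤ C1 := by
    have : ((17 ^ 8 * 54 * 144 ^ 4 : ℕ) : ℝ) ≤ C1 := by exact_mod_cast hC
    refine le_trans ?_ this
    push_cast
    norm_num
  obtain ⟨hc1, hc2⟩ := params n m Q e a (#A) ((S : ℝ) - 8 * m) C1 hn0' hm0' hQ0' ha0' hA0
    (by exact_mod_cast hA) (by exact_mod_cast he16) (by exact_mod_cast hQm)
    (by exact_mod_cast h2Qm) (by exact_mod_cast hmain.le) hC1 hpos (by linarith) hpot _ _ rfl rfl
  obtain ⟨D, hD⟩ : ∃ D : ℝ, D = 6 / 49 * (((S : ℝ) - 8 * m) / a) := ⟨_, rfl⟩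
  rw [← hD] at hc1 hc2 hdeg
  have hD0 : 0 < D := by rw [hD]; positivity
  obtain ⟨lam, hlamdef⟩ : ∃ lam : ℝ, lam = D ^ 2 / (72 * m) := ⟨_, rfl⟩
  rw [← hlamdef] at hc1 hc2
  have hlam0 : 0 < lam := by rw [hlamdef]; positivity
  have hlam : lam * (72 * m) = D ^ 2 := by rw [hlamdef]; field_simp
  have hlam1 : lam ≤ 1 := by
    have h8 : 8 * #B' ≤ S := by
      rw [← hm]
      have : (8 * m : ℝ) ≤ S := by linarith
      exact_mod_cast this
    obtain ⟨x, hx, hx'⟩ := exists_light R A' B' hA'ne hno'' S hS h8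
    rw [← hm, ← ha] at hx'
    have h1 : S ^ 2 ≤ 72 * m * a * a :=
      hx'.trans (Nat.mul_le_mul_left _ (by rw [ha]; exact card_le_card (filter_subset _ _)))
    have h2 : (S : ℝ) ^ 2 ≤ 72 * m * a * a := by exact_mod_cast h1
    rw [hlamdef, div_le_one (by positivity)]
    have h3 : D ≤ S / a := by
      rw [hD]
      have h4 : 0 ≤ ((S : ℝ) - 8 * m) / a := by positivity
      have h5 : ((S : ℝ) - 8 * m) / a ≤ S / a := by
        apply div_le_div_of_nonneg_right _ ha0'.le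
        linarith
      linarith
    calc D ^ 2 ≤ (S / a) ^ 2 := pow_le_pow_left₀ hD0.le h3 2
      _ = S ^ 2 / a ^ 2 := by rw [div_pow]
      _ ≤ 72 * m := by
          rw [div_le_iff₀ (by positivity)]
          calc (S : ℝ) ^ 2 ≤ 72 * m * a * a := h2
            _ = _ := by ring
  refine hno'' (K5_of_params R A' B' Q (fun b hb => ?_) D lam hD0.le ?_ ?_ hlam0 hlam1 hA'ne
    (card_pos.1 (hm ▸ hm0)) ?_ ?_)
  · exact (card_le_card (filter_subset_filter _ hA'A)).trans (hQ b hb).2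
  · intro x hx; exact hdeg x hx
  · rw [← hm]; exact hlam
  · rw [← hm, ← ha]; exact hc1
  · rw [← ha]; exact hc2

/-- **A graph with no subdivided `K₅`** has `O(n^{10/7})` edges. -/
theorem extremal {V : Type*} [Fintype V] (G : SimpleGraph V)
    (C1 : ℕ) (hC : 17 ^ 8 * 54 * 144 ^ 4 ≤ C1)
    (hno : ∀ A B : Finset V, Disjoint A B → ¬ K5 G.Adj A B) :
    G.edgeSet.ncard ^ 7 ≤ 128 * 5000 * C1 * Fintype.card V ^ 10 := by
  obtain ⟨A, B, -, -, hd, h⟩ := exists_cut G univ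
  have h1 := bip C1 hC G.Adj A B (Fintype.card V) (card_le_univ _) (card_le_univ _) (hno A B hd)
  have h2 : 2 * G.edgeSet.ncard = ∑ b ∈ (univ : Finset V), #(nA G.Adj univ b) := by
    rw [← SimpleGraph.coe_edgeFinset, Set.ncard_coe_finset,
      ← SimpleGraph.sum_degrees_eq_twice_card_edges]
    refine Finset.sum_congr rfl fun v _ => ?_
    rw [← SimpleGraph.card_neighborFinset_eq_degree]
    congr 1
    ext x
    simp only [SimpleGraph.mem_neighborFinset, nA, mem_filter, mem_univ, true_and, G.adj_comm]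
  have h3 : G.edgeSet.ncard ≤ 2 * ∑ b ∈ B, #(nA G.Adj A b) := by omega
  calc G.edgeSet.ncard ^ 7 ≤ (2 * ∑ b ∈ B, #(nA G.Adj A b)) ^ 7 := by gcongr
    _ = 128 * (∑ b ∈ B, #(nA G.Adj A b)) ^ 7 := by ring
    _ ≤ 128 * (5000 * C1 * Fintype.card V ^ 10) := Nat.mul_le_mul_left _ h1
    _ = _ := by ring

end Pool.Agent.H64.Sub
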